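import Pool.Agent.T2H27.Two.Up

/-!
The lower bound: the curves `y² + x y = x³ + ((a - 1)/4) x² - 2 ^ m b x`.
-/

set_option autoImplicit false

namespace Pool.Agent.T2H27.Two

open Finset Filter Topology
open Pool.Agent.H328R2.ABC
open Pool.Agent.T2H27.Szp (ev_log tendsto_exp2)
open Pool.Agent.R417.LD (sieve)

/-- the curve -/
def Wt (i t : ℤ) : WeierstrassCurve ℤ where
  a₁ := 1
  a₂ := 3 * i
  a₃ := 0
  a₄ := -t
  a₆ := 0

theorem Wt_c4 (i t : ℤ) : (Wt i t).c₄ = (12 * i + 1) ^ 2 + 48 * t := by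
  unfold Wt WeierstrassCurve.c₄ WeierstrassCurve.b₂ WeierstrassCurve.b₄
  ring

theorem Wt_c6 (i t : ℤ) : (Wt i t).c₆ = -(12 * i + 1) ^ 3 - 72 * (12 * i + 1) * t := by
  unfold Wt WeierstrassCurve.c₆ WeierstrassCurve.b₂ WeierstrassCurve.b₄ WeierstrassCurve.b₆
  ring

theorem Wt_D (i t : ℤ) : (Wt i t).Δ = t ^ 2 * ((12 * i + 1) ^ 2 + 64 * t) := by
  unfold Wt WeierstrassCurve.Δ WeierstrassCurve.b₂ WeierstrassCurve.b₄ WeierstrassCurve.b₆
    WeierstrassCurve.b₈
  ring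

theorem Wt_two (i t : ℤ) : HasTwo (Wt i t) := by
  refine ⟨0, ?_⟩
  unfold Wt WeierstrassCurve.b₂ WeierstrassCurve.b₄ WeierstrassCurve.b₆
  push_cast
  ring

theorem Wt_cop (i t : ℤ) (h : IsCoprime (12 * i + 1) t) : IsCoprime (Wt i t).c₄ (Wt i t).Δ := by
  rw [Wt_c4, Wt_D]
  set a : ℤ := 12 * i + 1 with ha
  have h2 : IsCoprime a 2 := by
    refine ⟨1, -6 * i, ?_⟩
    rw [ha]; ring
  have h16 : IsCoprime (16 * t) a := by
    have h3 : IsCoprime a 16 := by
      have := h2.pow_right (n := 4)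
      norm_num at this
      exact this
    exact (h3.mul_right h).symm
  have h1 : IsCoprime (a ^ 2 + 48 * t) t := by
    have : IsCoprime (a ^ 2) t := h.pow_left
    have h4 := this.add_mul_left_left 48
    rwa [mul_comm t 48] at h4
  have h5 : IsCoprime (a ^ 2 + 48 * t) (a ^ 2 + 64 * t) := by
    -- the difference is 16 t
    have h6 : IsCoprime (a ^ 2 + 48 * t) (16 * t) := by
      have h7 : IsCoprime (a ^ 2) (16 * t) := h16.symm.pow_left
      have h8 := h7.add_mul_left_left 3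
      have e : a ^ 2 + 16 * t * 3 = a ^ 2 + 48 * t := by ring
      rwa [e] at h8
    have h9 := h6.add_mul_left_right 1
    have e : 16 * t + (a ^ 2 + 48 * t) * 1 = a ^ 2 + 64 * t := by ring
    rwa [e] at h9
  exact (h1.pow_right).mul_right h5

/-- `(a, t)` is determined by the invariants -/
theorem Wt_inj {i t i' t' : ℤ} (hi : 0 < i) (hi' : 0 < i') (ht : 0 < t) (ht' : 0 < t')
    (h4 : (Wt i t).c₄ = (Wt i' t').c₄) (h6 : (Wt i t).c₆ = (Wt i' t').c₆) : i = i' ∧ t = t' := by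
  rw [Wt_c4, Wt_c4] at h4
  rw [Wt_c6, Wt_c6] at h6
  set a : ℤ := 12 * i + 1 with ha
  set a' : ℤ := 12 * i' + 1 with ha'
  have ha0 : 0 < a := by rw [ha]; omega
  have ha0' : 0 < a' := by rw [ha']; omega
  have h7 : (a - a') * (a ^ 2 + a * a' + a' ^ 2 - 3 * (a ^ 2 + 48 * t)) = 0 := by
    have h8 : a ^ 3 - 3 * (a ^ 2 + 48 * t) * a = a' ^ 3 - 3 * (a' ^ 2 + 48 * t') * a' := by
      linarith
    rw [← h4] at h8
    linear_combination h8
  have haa : a = a' := by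
    rcases mul_eq_zero.1 h7 with h8 | h8
    · linarith
    · exfalso
      have h9 : 2 * (a ^ 2 + a * a' + a' ^ 2) = 3 * (a ^ 2 + 48 * t) + 3 * (a' ^ 2 + 48 * t') := by
        linarith
      nlinarith [sq_nonneg (a - a')]
  refine ⟨by omega, ?_⟩
  rw [haa] at h4
  linarith

theorem low2 (κ c₀ : ℝ) (h1 : 3 / 2 ≤ κ) (h3 : κ < 3) (hc₀ : 0 < c₀) :
    ∃ c X₀ : ℝ, 0 < c ∧ 1 ≤ X₀ ∧ ∀ X : ℝ, X₀ ≤ X →
      c * X ^ (6 / κ - 1) ≤ ((Exc2 κ c₀ X).ncard : ℝ) := by
  classical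
  have hκ0 : 0 < κ := by linarith
  -- the constant
  obtain ⟨c₁, hc₁, hc₁1, hc₁e⟩ : ∃ c₁ : ℝ, 0 < c₁ ∧ c₁ ≤ 1 ∧ c₀ * c₁ ^ κ < 1 / 16384 := by
    refine ⟨min 1 ((1 / (32768 * c₀)) ^ (1 / κ)), lt_min one_pos (by positivity),
      min_le_left _ _, ?_⟩
    have h5 : (min 1 ((1 / (32768 * c₀)) ^ (1 / κ))) ^ κ ≤ 1 / (32768 * c₀) := by
      calc (min 1 ((1 / (32768 * c₀)) ^ (1 / κ))) ^ κ ≤ ((1 / (32768 * c₀)) ^ (1 / κ)) ^ κ := by
            apply Real.rpow_le_rpow (le_min zero_le_one (by positivity)) (min_le_right _ _) hκ0.le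
        _ = 1 / (32768 * c₀) := by
            rw [← Real.rpow_mul (by positivity), one_div_mul_cancel hκ0.ne', Real.rpow_one]
    calc c₀ * _ ≤ c₀ * (1 / (32768 * c₀)) := by gcongr
      _ = 1 / 32768 := by field_simp
      _ < _ := by norm_num
  set δ : ℝ := 6 / κ - 2 with hδ
  have hδ0 : 0 < δ := by
    rw [hδ]
    have : 2 < 6 / κ := by rw [lt_div_iff₀ hκ0]; linarith
    linarith
  have hδ2 : δ ≤ 2 := by
    rw [hδ]
    have : 6 / κ ≤ 4 := by rw [div_le_iff₀ hκ0]; linarith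
    linarith
  -- the size conditions hold eventually
  have e1 := ev_log (1200 + 1200 * (1 + Real.log 2)) 1200 1 one_pos
  have e2 := ev_log (512000 / c₁ * (1 + (1 + Real.log 2))) (512000 / c₁) δ hδ0
  obtain ⟨V₀, hV₀⟩ := eventually_atTop.1 (e1.and (e2.and (eventually_ge_atTop 26)))
  set cc : ℝ := c₁ / (100 * 2048 * 2 * 3 ^ (6 / κ - 1)) with hcc
  refine ⟨cc, max 1 (3 * max V₀ 1), by positivity, le_max_left _ _, fun X hX => ?_⟩
  have hX1 : 1 ≤ X := (le_max_left _ _).trans hX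
  have hX0 : 0 < X := by linarith
  set V : ℝ := X / 3 with hV
  have hVV : V₀ ≤ V := by
    have h5 : 3 * max V₀ 1 ≤ X := (le_max_right _ _).trans hX
    have h6 : V₀ ≤ max V₀ 1 := le_max_left _ _
    rw [hV]; linarith
  have hV1 : 1 ≤ V := by
    have h5 : 3 * max V₀ 1 ≤ X := (le_max_right _ _).trans hX
    have h6 : 1 ≤ max V₀ 1 := le_max_right _ _
    rw [hV]; linarith
  obtain ⟨f1, f2, f3⟩ := hV₀ V hVV
  rw [Real.rpow_one] at f1
  have hV0 : 0 < V := by linarith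
  have hlogV : 0 ≤ Real.log V := Real.log_nonneg hV1
  -- the power of two
  have hP1 : 1 ≤ V ^ (2 - δ) / c₁ := by
    rw [le_div_iff₀ hc₁, one_mul]
    exact hc₁1.trans (Real.one_le_rpow hV1 (by linarith))
  obtain ⟨m₀, hm1, hm2⟩ := exists_nat_pow_near hP1 (one_lt_two)
  set P : ℝ := 2 ^ (m₀ + 1) with hP
  have hP0 : 0 < P := by positivity
  have hPu : P ≤ 2 * (V ^ (2 - δ) / c₁) := by rw [hP, pow_succ]; linarith
  have hPl : V ^ (2 - δ) / c₁ < P := hm2
  -- the width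
  set Wd : ℝ := V ^ 2 / (128 * P) with hWd
  have hVδ : V ^ 2 = V ^ (2 - δ) * V ^ δ := by
    rw [← Real.rpow_add hV0, ← Real.rpow_natCast]
    congr 1
    push_cast
    ring
  have hWd1 : c₁ / 256 * V ^ δ ≤ Wd := by
    rw [hWd, le_div_iff₀ (by positivity), hVδ]
    have h5 : P * c₁ ≤ 2 * V ^ (2 - δ) := by
      calc P * c₁ ≤ 2 * (V ^ (2 - δ) / c₁) * c₁ := by gcongr
        _ = _ := by field_simp
    have h6 : 0 < V ^ δ := by positivity
    nlinarith
  -- consequences of the eventual inequalities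
  have hlog2V : Real.log (2 * V) = Real.log 2 + Real.log V :=
    Real.log_mul (by norm_num) hV0.ne'
  have hl2 : 0 < Real.log 2 := Real.log_pos (by norm_num)
  have f2' : 512000 * (1 + (1 + Real.log (2 * V))) ≤ c₁ * V ^ δ := by
    have h5 : 512000 * (1 + (1 + Real.log (2 * V))) =
        c₁ * (512000 / c₁ * (1 + (1 + Real.log 2)) + 512000 / c₁ * Real.log V) := by
      rw [hlog2V]
      field_simp
      ring
    rw [h5]
    exact mul_le_mul_of_nonneg_left f2 hc₁.le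
  have hWdL : 2000 * (1 + (1 + Real.log (2 * V))) ≤ Wd := by linarith
  have hlog0 : 0 ≤ Real.log (2 * V) := by rw [hlog2V]; linarith
  have hWd2 : 4000 ≤ Wd := by linarith
  have f1' : 1200 * (1 + (1 + Real.log (2 * V))) ≤ V := by rw [hlog2V]; linarith
  -- parameters
  set i₀ : ℕ := ⌈V / 12⌉₊ with hi₀
  set I : ℕ := ⌊V / 24⌋₊ with hI
  set j₀ : ℕ := ⌈Wd⌉₊ with hj₀
  set J : ℕ := ⌊Wd / 2⌋₊ with hJ
  have hi1 : V / 12 ≤ i₀ := Nat.le_ceil _
  have hi2 : (i₀ : ℝ) < V / 12 + 1 := Nat.ceil_lt_add_one (by positivity)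
  have hI1 : (I : ℝ) ≤ V / 24 := Nat.floor_le (by positivity)
  have hI2 : V / 24 < I + 1 := Nat.lt_floor_add_one _
  have hj1 : Wd ≤ j₀ := Nat.le_ceil _
  have hj2 : (j₀ : ℝ) < Wd + 1 := Nat.ceil_lt_add_one (by linarith)
  have hJ1 : (J : ℝ) ≤ Wd / 2 := Nat.floor_le (by linarith)
  have hJ2 : Wd / 2 < J + 1 := Nat.lt_floor_add_one _
  have hI3 : V / 25 ≤ I := by linarith
  have hJ3 : Wd / 4 ≤ J := by linarith
  set R : ℕ := ⌊2 * V⌋₊ with hR
  have hR1 : (R : ℝ) ≤ 2 * V := Nat.floor_le (by positivity)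
  have hR0 : 0 < (R : ℝ) := by
    have : 1 ≤ R := Nat.le_floor (by push_cast; linarith)
    exact_mod_cast this
  have hlogR : Real.log R ≤ Real.log (2 * V) := Real.log_le_log hR0 hR1
  have hai : ∀ i : ℕ, i < I → (12 * ((i₀ + i : ℕ) : ℝ) + 1) ≤ 2 * V ∧
      V ≤ 12 * ((i₀ + i : ℕ) : ℝ) + 1 := by
    intro i hi
    have hiR : (i : ℝ) ≤ I := by exact_mod_cast hi.le
    have hi0R : (0 : ℝ) ≤ i := Nat.cast_nonneg _
    push_cast
    constructor
    · linarith
    · linarith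
  have hbj : ∀ j : ℕ, j < J → ((j₀ + j : ℕ) : ℝ) ≤ 2 * Wd ∧ Wd ≤ ((j₀ + j : ℕ) : ℝ) := by
    intro j hj
    have hjR : (j : ℝ) ≤ J := by exact_mod_cast hj.le
    have hj0R : (0 : ℝ) ≤ j := Nat.cast_nonneg _
    push_cast
    constructor <;> linarith
  obtain ⟨T, hT, hTcard⟩ := sieve I J R (fun i => 12 * ((i₀ + i : ℕ) : ℤ) + 1)
    (fun _ j => ((j₀ + j : ℕ) : ℤ)) (by
      intro i hi
      refine ⟨by positivity, ?_⟩
      have h5 := (hai i hi).1
      have h6 : (12 * ((i₀ + i : ℕ) : ℤ) + 1).natAbs = 12 * (i₀ + i) + 1 := by omega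
      rw [h6]
      refine Nat.le_floor ?_
      push_cast at h5 ⊢
      exact h5) (by
      intro p hp hp5 i i' h5 h6
      have h7 : (p : ℤ) ∣ 12 * (((i₀ + i' : ℕ) : ℤ) - ((i₀ + i : ℕ) : ℤ)) := by
        have := dvd_sub h6 h5
        have e : 12 * ((i₀ + i' : ℕ) : ℤ) + 1 - (12 * ((i₀ + i : ℕ) : ℤ) + 1) =
          12 * (((i₀ + i' : ℕ) : ℤ) - ((i₀ + i : ℕ) : ℤ)) := by ring
        rwa [e] at this
      have hc : IsCoprime (p : ℤ) 12 := by
        have c2 : Nat.Coprime p 2 := (Nat.coprime_primes hp Nat.prime_two).mpr (by omega)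
        have c3 : Nat.Coprime p 3 := (Nat.coprime_primes hp Nat.prime_three).mpr (by omega)
        have c12 : Nat.Coprime p (2 ^ 2 * 3) := (c2.pow_right 2).mul_right c3
        norm_num at c12
        exact_mod_cast Nat.isCoprime_iff_coprime.mpr c12
      have h8 := hc.dvd_of_dvd_mul_left h7
      rw [← Int.natCast_modEq_iff]
      refine (Int.modEq_iff_dvd).2 ?_
      push_cast at h8
      have e : (i₀ : ℤ) + i' - (i₀ + i) = i' - i := by ring
      rwa [e] at h8) (by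
      intro p hp hp5 i j j' h5 h6
      have h7 := dvd_sub h6 h5
      rw [← Int.natCast_modEq_iff]
      refine (Int.modEq_iff_dvd).2 ?_
      push_cast at h7
      have e : (j₀ : ℤ) + j' - (j₀ + j) = j' - j := by ring
      rwa [e] at h7) (by linarith) (by linarith) (by
      have h5 : V / 25 * (Wd / 4) ≤ (I : ℝ) * J := mul_le_mul hI3 hJ3 (by linarith) (by linarith)
      have h6 : V * 4000 ≤ V * Wd := mul_le_mul_of_nonneg_left hWd2 hV0.le
      linarith)
  -- the map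
  let f : ℕ × ℕ → ℤ × ℤ := fun q =>
    ((Wt ((i₀ + q.1 : ℕ) : ℤ) (((2 ^ (m₀ + 1) * (j₀ + q.2) : ℕ)) : ℤ)).c₄,
      (Wt ((i₀ + q.1 : ℕ) : ℤ) (((2 ^ (m₀ + 1) * (j₀ + q.2) : ℕ)) : ℤ)).c₆)
  have hi₀0 : 0 < i₀ := by
    have : (0 : ℝ) < i₀ := by linarith
    exact_mod_cast this
  have hj₀0 : 0 < j₀ := by
    have : (0 : ℝ) < j₀ := by linarith
    exact_mod_cast this
  have hinj : Set.InjOn f (T : Set (ℕ × ℕ)) := by
    rintro ⟨i, j⟩ hq ⟨i', j'⟩ hq' he
    simp only [f, Prod.mk.injEq] at he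
    have h5 : (0 : ℤ) < ((i₀ + i : ℕ) : ℤ) := by exact_mod_cast Nat.add_pos_left hi₀0 _
    have h5' : (0 : ℤ) < ((i₀ + i' : ℕ) : ℤ) := by exact_mod_cast Nat.add_pos_left hi₀0 _
    have h6 : (0 : ℤ) < ((2 ^ (m₀ + 1) * (j₀ + j) : ℕ) : ℤ) := by
      have : 0 < 2 ^ (m₀ + 1) * (j₀ + j) := Nat.mul_pos (by positivity) (Nat.add_pos_left hj₀0 _)
      exact_mod_cast this
    have h6' : (0 : ℤ) < ((2 ^ (m₀ + 1) * (j₀ + j') : ℕ) : ℤ) := by
      have : 0 < 2 ^ (m₀ + 1) * (j₀ + j') := Nat.mul_pos (by positivity) (Nat.add_pos_left hj₀0 _)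
      exact_mod_cast this
    obtain ⟨h7, h8⟩ := Wt_inj h5 h5' h6 h6' he.1 he.2
    have h9 : i₀ + i = i₀ + i' := by exact_mod_cast h7
    have h10 : 2 ^ (m₀ + 1) * (j₀ + j) = 2 ^ (m₀ + 1) * (j₀ + j') := by exact_mod_cast h8
    have h11 := Nat.eq_of_mul_eq_mul_left (by positivity) h10
    rw [Prod.mk.injEq]
    exact ⟨by omega, by omega⟩
  have hsub : ((T.image f : Finset (ℤ × ℤ)) : Set (ℤ × ℤ)) ⊆ Exc2 κ c₀ X := by
    intro q hq
    rw [mem_coe, mem_image] at hq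
    obtain ⟨⟨i, j⟩, hq, rfl⟩ := hq
    obtain ⟨hiI, hjJ, hcop⟩ := hT _ hq
    simp only at hiI hjJ hcop
    obtain ⟨a1, a2⟩ := hai i hiI
    obtain ⟨b1, b2⟩ := hbj j hjJ
    set ii : ℕ := i₀ + i with hii
    set bb : ℕ := j₀ + j with hbb
    have hbb0 : 0 < bb := Nat.add_pos_left hj₀0 _
    set t : ℕ := 2 ^ (m₀ + 1) * bb with ht
    have ht0 : 0 < t := Nat.mul_pos (by positivity) hbb0
    set a : ℕ := 12 * ii + 1 with ha
    have haR : (a : ℝ) = 12 * (ii : ℝ) + 1 := by rw [ha]; push_cast; ring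
    rw [← haR] at a1 a2
    have htR : (t : ℝ) = P * bb := by rw [ht, hP]; push_cast; ring
    have hPW : P * Wd = V ^ 2 / 128 := by rw [hWd]; field_simp
    have ht1 : V ^ 2 / 128 ≤ t := by
      rw [htR, ← hPW]
      gcongr
    have ht2 : (t : ℝ) ≤ V ^ 2 / 64 := by
      rw [htR]
      calc P * bb ≤ P * (2 * Wd) := by gcongr
        _ = 2 * (P * Wd) := by ring
        _ = _ := by rw [hPW]; ring
    have hDZ : (Wt (ii : ℤ) (t : ℤ)).Δ = ((t ^ 2 * (a ^ 2 + 64 * t) : ℕ) : ℤ) := by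
      rw [Wt_D, ha]
      push_cast
      ring
    have h4Z : (Wt (ii : ℤ) (t : ℤ)).c₄ = ((a ^ 2 + 48 * t : ℕ) : ℤ) := by
      rw [Wt_c4, ha]
      push_cast
      ring
    have h6Z : (Wt (ii : ℤ) (t : ℤ)).c₆ = -((a ^ 3 + 72 * a * t : ℕ) : ℤ) := by
      rw [Wt_c6, ha]
      push_cast
      ring
    have ha0 : 0 < a := by rw [ha]; omega
    have hDpos : 0 < t ^ 2 * (a ^ 2 + 64 * t) := by positivity
    have hcopN : Nat.Coprime a t := by
      rw [Nat.coprime_iff_gcd_eq_one]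
      by_contra hne
      obtain ⟨p, hp, hpd⟩ := Nat.exists_prime_and_dvd hne
      have hpa : p ∣ a := hpd.trans (Nat.gcd_dvd_left _ _)
      have hpt : p ∣ t := hpd.trans (Nat.gcd_dvd_right _ _)
      have hp2 : p ≠ 2 := by
        rintro rfl
        rw [ha] at hpa
        omega
      have hp3 : p ≠ 3 := by
        rintro rfl
        rw [ha] at hpa
        omega
      have hp4 : p ≠ 4 := by
        rintro rfl
        exact absurd hp (by norm_num)
      have hp5 : 5 ≤ p := by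
        have := hp.two_le
        omega
      have hpb : p ∣ bb := by
        rw [ht] at hpt
        rcases hp.dvd_mul.1 hpt with h | h
        · exact absurd ((Nat.prime_dvd_prime_iff_eq hp Nat.prime_two).1 (hp.dvd_of_dvd_pow h)) hp2
        · exact h
      refine hcop p hp hp5 ?_ ?_
      · have : (p : ℤ) ∣ ((a : ℕ) : ℤ) := by exact_mod_cast hpa
        rw [ha] at this
        push_cast at this ⊢
        exact this
      · exact_mod_cast hpb
    refine ⟨Wt (ii : ℤ) (t : ℤ), ?_, ?_, Wt_two _ _, rfl, ?_, ?_, ?_⟩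
    · rw [hDZ]
      exact_mod_cast hDpos.ne'
    · refine Wt_cop _ _ ?_
      have : IsCoprime (a : ℤ) (t : ℤ) := Nat.isCoprime_iff_coprime.mpr hcopN
      rw [ha] at this
      push_cast at this
      exact this
    · rw [h4Z]
      push_cast
      rw [abs_of_nonneg (by positivity)]
      have h5 : (a : ℝ) ^ 2 + 48 * t ≤ X ^ 2 := by
        have : (a : ℝ) ^ 2 ≤ (2 * V) ^ 2 := by gcongr
        have hXV : X = 3 * V := by rw [hV]; ring
        rw [hXV]
        nlinarith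
      calc ((a : ℝ) ^ 2 + 48 * t) ^ 3 ≤ (X ^ 2) ^ 3 := by gcongr
        _ = X ^ 6 := by ring
    · rw [h6Z]
      push_cast
      have h5 : (a : ℝ) ^ 3 + 72 * a * t ≤ X ^ 3 := by
        have h6 : (a : ℝ) ^ 3 ≤ (2 * V) ^ 3 := by gcongr
        have h7 : 72 * (a : ℝ) * t ≤ 72 * (2 * V) * (V ^ 2 / 64) := by gcongr
        have hXV : X = 3 * V := by rw [hV]; ring
        rw [hXV]
        nlinarith [pow_pos hV0 3]
      have h6 : (0 : ℝ) ≤ (a : ℝ) ^ 3 + 72 * a * t := by positivity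
      calc (-((a : ℝ) ^ 3 + 72 * a * t)) ^ 2 = ((a : ℝ) ^ 3 + 72 * a * t) ^ 2 := by ring
        _ ≤ (X ^ 3) ^ 2 := by gcongr
        _ = X ^ 6 := by ring
    · -- the conductor
      have hDabs : ((Wt (ii : ℤ) (t : ℤ)).Δ.natAbs) = t ^ 2 * (a ^ 2 + 64 * t) := by
        rw [hDZ, Int.natAbs_natCast]
      have hDR : |((Wt (ii : ℤ) (t : ℤ)).Δ : ℝ)| = (t : ℝ) ^ 2 * (a ^ 2 + 64 * t) := by
        rw [hDZ]
        push_cast
        rw [abs_of_nonneg (by positivity)]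
      rw [hDabs, hDR]
      have hrad : rad (t ^ 2 * (a ^ 2 + 64 * t)) ≤ 2 * bb * (a ^ 2 + 64 * t) := by
        have h5 : (t ^ 2 * (a ^ 2 + 64 * t)).primeFactors ⊆
            (2 * bb * (a ^ 2 + 64 * t)).primeFactors := by
          intro p hp
          have hpp := Nat.prime_of_mem_primeFactors hp
          have hpn := Nat.dvd_of_mem_primeFactors hp
          refine Nat.mem_primeFactors.mpr ⟨hpp, ?_, by positivity⟩
          rcases hpp.dvd_mul.1 hpn with h | h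
          · have h6 := hpp.dvd_of_dvd_pow h
            rw [ht] at h6
            rcases hpp.dvd_mul.1 h6 with h7 | h7
            · exact ((hpp.dvd_of_dvd_pow h7).mul_right _).mul_right _
            · exact (h7.mul_left _).mul_right _
          · exact h.mul_left _
        unfold rad
        refine Nat.le_of_dvd (by positivity) ?_
        exact (prod_dvd_prod_of_subset _ _ _ h5).trans (Nat.prod_primeFactors_dvd _)
      have hradR : (rad (t ^ 2 * (a ^ 2 + 64 * t)) : ℝ) ≤ 2 * bb * (a ^ 2 + 64 * t) := by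
        exact_mod_cast hrad
      have h5 : (a : ℝ) ^ 2 + 64 * t ≤ 5 * V ^ 2 := by
        have : (a : ℝ) ^ 2 ≤ (2 * V) ^ 2 := by gcongr
        nlinarith
      have h6 : V ^ 2 ≤ (a : ℝ) ^ 2 + 64 * t := by
        have : V ^ 2 ≤ (a : ℝ) ^ 2 := by gcongr
        have h7 : (0 : ℝ) ≤ t := Nat.cast_nonneg _
        linarith
      have h7 : (2 : ℝ) * bb * (a ^ 2 + 64 * t) ≤ c₁ * V ^ (2 + δ) := by
        have h8 : (2 : ℝ) * bb ≤ V ^ 2 / (32 * P) := by
          calc (2 : ℝ) * bb ≤ 2 * (2 * Wd) := by gcongr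
            _ = V ^ 2 / (32 * P) := by rw [hWd]; field_simp; ring
        have h9 : V ^ 2 / (32 * P) ≤ c₁ * V ^ δ / 32 := by
          rw [div_le_div_iff₀ (by positivity) (by norm_num), hVδ]
          have h10 : V ^ (2 - δ) ≤ c₁ * P := by
            rw [div_lt_iff₀ hc₁] at hPl
            linarith
          have h11 : 0 ≤ V ^ δ * 32 := by positivity
          calc V ^ (2 - δ) * V ^ δ * 32 = V ^ (2 - δ) * (V ^ δ * 32) := by ring
            _ ≤ c₁ * P * (V ^ δ * 32) := mul_le_mul_of_nonneg_right h10 h11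
            _ = c₁ * V ^ δ * (32 * P) := by ring
        calc (2 : ℝ) * bb * (a ^ 2 + 64 * t) ≤ (c₁ * V ^ δ / 32) * (5 * V ^ 2) :=
              mul_le_mul (h8.trans h9) h5 (by positivity) (by positivity)
          _ = 5 / 32 * (c₁ * (V ^ 2 * V ^ δ)) := by ring
          _ ≤ c₁ * (V ^ 2 * V ^ δ) := by
              have : 0 < c₁ * (V ^ 2 * V ^ δ) := by positivity
              linarith
          _ = c₁ * V ^ (2 + δ) := by
              rw [Real.rpow_add hV0, ← Real.rpow_natCast]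
              norm_num
      have h8 : (rad (t ^ 2 * (a ^ 2 + 64 * t)) : ℝ) ^ κ ≤ c₁ ^ κ * V ^ 6 := by
        calc (rad (t ^ 2 * (a ^ 2 + 64 * t)) : ℝ) ^ κ ≤ (c₁ * V ^ (2 + δ)) ^ κ :=
              Real.rpow_le_rpow (Nat.cast_nonneg _) (hradR.trans h7) hκ0.le
          _ = c₁ ^ κ * V ^ 6 := by
              rw [Real.mul_rpow hc₁.le (by positivity), ← Real.rpow_mul hV0.le]
              congr 1
              rw [← Real.rpow_natCast]
              congr 1
              rw [hδ]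
              push_cast
              field_simp
              ring
      have hV6 : 0 < V ^ 6 := by positivity
      calc c₀ * (rad (t ^ 2 * (a ^ 2 + 64 * t)) : ℝ) ^ κ ≤ c₀ * (c₁ ^ κ * V ^ 6) := by gcongr
        _ = (c₀ * c₁ ^ κ) * V ^ 6 := by ring
        _ < 1 / 16384 * V ^ 6 := by gcongr
        _ = (V ^ 2 / 128) ^ 2 * V ^ 2 := by ring
        _ ≤ (t : ℝ) ^ 2 * (a ^ 2 + 64 * t) := by gcongr
  have hle := Set.ncard_le_ncard hsub (exc2_finite κ c₀ X hX1)
  rw [Set.ncard_coe_finset, card_image_of_injOn hinj] at hle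
  have hleR : (T.card : ℝ) ≤ ((Exc2 κ c₀ X).ncard : ℝ) := by exact_mod_cast hle
  refine le_trans ?_ hleR
  refine le_trans ?_ hTcard
  have h5 : V / 25 * (Wd / 4) ≤ (I : ℝ) * J := mul_le_mul hI3 hJ3 (by linarith) (by linarith)
  have h6 : V / 25 * ((c₁ / 256 * V ^ δ) / 4) ≤ (I : ℝ) * J := by
    refine le_trans ?_ h5
    gcongr
  have h7 : V ^ (6 / κ - 1) = V * V ^ δ := by
    have : 6 / κ - 1 = 1 + δ := by rw [hδ]; ring
    rw [this, Real.rpow_add hV0, Real.rpow_one]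
  have h8 : X ^ (6 / κ - 1) = 3 ^ (6 / κ - 1) * V ^ (6 / κ - 1) := by
    rw [← Real.mul_rpow (by norm_num) hV0.le]
    congr 1
    rw [hV]; ring
  rw [h8, h7, hcc]
  have h9 : (0 : ℝ) < 3 ^ (6 / κ - 1) := by positivity
  have h10 : c₁ / (100 * 2048 * 2 * 3 ^ (6 / κ - 1)) * (3 ^ (6 / κ - 1) * (V * V ^ δ)) =
      c₁ / 409600 * (V * V ^ δ) := by
    field_simp
    ring
  rw [h10]
  have h11 : 0 < c₁ * (V * V ^ δ) := by positivity
  have h12 : V / 25 * ((c₁ / 256 * V ^ δ) / 4) = c₁ / 25600 * (V * V ^ δ) := by ring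
  rw [h12] at h6
  linarith

theorem exc2_mono {κ κ' c₀ X : ℝ} (hc₀ : 0 < c₀) (h : κ ≤ κ') : Exc2 κ' c₀ X ⊆ Exc2 κ c₀ X := by
  rintro q ⟨W, h1, h2, h3, h4, h5, h6, h7⟩
  refine ⟨W, h1, h2, h3, h4, h5, h6, lt_of_le_of_lt ?_ h7⟩
  have h8 : (1 : ℝ) ≤ rad W.Δ.natAbs := by exact_mod_cast rad_pos _
  have h9 := Real.rpow_le_rpow_of_exponent_le h8 h
  gcongr

theorem exact2 (κ c₀ : ℝ) (hκ : 0 < κ) (h2 : κ ≤ 9 / 4) (hc₀ : 0 < c₀) :
    Tendsto (fun X : ℝ => Real.log ((Exc2 κ c₀ X).ncard : ℝ) / Real.log X) atTop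
      (𝓝 (min 3 (6 / κ - 1))) := by
  refine tendsto_exp2 ?_ ?_
  · intro ε hε
    obtain ⟨C, hC, h⟩ := upper2 κ c₀ ε hκ hc₀ hε
    refine ⟨C, hC, fun X hX => ?_⟩
    have h1 := h X hX
    have e : min 3 (max (6 / κ - 1) (1 + 3 / (2 * κ))) = min 3 (6 / κ - 1) := by
      rcases le_total κ (3 / 4) with h3 | h3
      · have h4 : 3 ≤ 6 / κ - 1 := by
          have : 4 ≤ 6 / κ := by rw [le_div_iff₀ hκ]; linarith
          linarith
        rw [min_eq_left h4, min_eq_left (h4.trans (le_max_left _ _))]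
      · have h4 : 1 + 3 / (2 * κ) ≤ min 3 (6 / κ - 1) := by
          refine le_min ?_ ?_
          · have : 3 / (2 * κ) ≤ 2 := by rw [div_le_iff₀ (by positivity)]; linarith
            linarith
          · have e1 : 3 / (2 * κ) = (3 / 2) / κ := by field_simp
            have e2 : 2 ≤ (9 / 2) / κ := by rw [le_div_iff₀ hκ]; linarith
            have e3 : (9 / 2) / κ = 6 / κ - (3 / 2) / κ := by ring
            rw [e1]
            linarith
        rcases le_total (6 / κ - 1) (1 + 3 / (2 * κ)) with h5 | h5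
        · have h6 : 1 + 3 / (2 * κ) = 6 / κ - 1 := le_antisymm (h4.trans (min_le_right _ _)) h5
          rw [h6, max_self]
        · rw [max_eq_left h5]
    rwa [e] at h1
  · intro ε hε
    set κ' : ℝ := max κ (3 / 2) with hκ'
    have h3 : κ' < 3 := by
      rw [hκ']
      exact max_lt (by linarith) (by norm_num)
    obtain ⟨c, X₀, hc, hX₀, h⟩ := low2 κ' c₀ (le_max_right _ _) h3 hc₀
    refine ⟨c, X₀, hc, fun X hX => ?_⟩
    have hX1 : 1 ≤ X := hX₀.trans hX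
    have h4 := h X hX
    have h5 : ((Exc2 κ' c₀ X).ncard : ℝ) ≤ ((Exc2 κ c₀ X).ncard : ℝ) := by
      exact_mod_cast Set.ncard_le_ncard (exc2_mono hc₀ (le_max_left _ _)) (exc2_finite κ c₀ X hX1)
    refine le_trans ?_ (h4.trans h5)
    have h6 : min 3 (6 / κ - 1) - ε ≤ 6 / κ' - 1 := by
      rcases le_total κ (3 / 2) with h7 | h7
      · have : κ' = 3 / 2 := max_eq_right h7
        rw [this]
        have h8 := min_le_left 3 (6 / κ - 1)
        have h9 : (6 : ℝ) / (3 / 2) - 1 = 3 := by norm_num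
        rw [h9]
        linarith
      · have : κ' = κ := max_eq_left h7
        rw [this]
        have := min_le_right 3 (6 / κ - 1)
        linarith
    have h7 := Real.rpow_le_rpow_of_exponent_le hX1 h6
    gcongr

end Pool.Agent.T2H27.Two
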