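import Mathlib
import Pool.Agent.H328R2.ABC.Parts

/-!
Arithmetic of the semistable curves with a rational point of order two: copied from the starting
files `Pool/Agent/H925R/Two/{Semi,Count,Arith}.lean` and `Pool/Agent/H925R/Szpiro/Semi.lean`, to
avoid their imports.
-/

set_option autoImplicit false
set_option linter.unusedVariables false

namespace Pool.Agent.T2H27.Two

open Finset
open Pool.Agent.H328R2.ABC

/-- the squarefree part -/
noncomputable def sqf (n : ℕ) : ℕ := (Nat.sq_mul_squarefree n).choose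

theorem sqf_spec (n : ℕ) (hn : 0 < n) : ∃ r : ℕ, 0 < r ∧ r ^ 2 * sqf n = n ∧
    Squarefree (sqf n) ∧ 0 < sqf n := by
  obtain ⟨r, h1, h2⟩ := (Nat.sq_mul_squarefree n).choose_spec
  have h1' : r ^ 2 * sqf n = n := h1
  refine ⟨r, ?_, h1', h2, ?_⟩
  · apply Nat.pos_of_ne_zero
    rintro rfl
    rw [zero_pow (by norm_num), zero_mul] at h1'
    omega
  · apply Nat.pos_of_ne_zero
    intro h
    rw [h, mul_zero] at h1'
    omega

theorem sqf_sq (n x m : ℕ) (hn : 0 < n) (hx : 0 < x) (h : x * n = m ^ 2) :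
    ∃ s : ℕ, 0 < s ∧ x = sqf n * s ^ 2 := by
  obtain ⟨r, hr0, hr, hsq, hpos⟩ := sqf_spec n hn
  have h1 : r ^ 2 ∣ m ^ 2 := by
    rw [← h, ← hr]
    exact ⟨x * sqf n, by ring⟩
  obtain ⟨m', hm'⟩ := (Nat.pow_dvd_pow_iff (by norm_num)).mp h1
  have h2 : x * sqf n = m' ^ 2 := by
    have : r ^ 2 * (x * sqf n) = r ^ 2 * m' ^ 2 := by
      calc r ^ 2 * (x * sqf n) = x * (r ^ 2 * sqf n) := by ring
        _ = m ^ 2 := by rw [hr, h]
        _ = r ^ 2 * m' ^ 2 := by rw [hm']; ring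
    exact Nat.eq_of_mul_eq_mul_left (by positivity) this
  have h3 : sqf n ∣ m' ^ 2 := by rw [← h2]; exact dvd_mul_left _ _
  obtain ⟨s, hs⟩ := (hsq.dvd_pow_iff_dvd (by norm_num)).mp h3
  have h4 : x = sqf n * s ^ 2 := by
    have : sqf n * x = sqf n * (sqf n * s ^ 2) := by
      calc sqf n * x = x * sqf n := by ring
        _ = m' ^ 2 := h2
        _ = sqf n * (sqf n * s ^ 2) := by rw [hs]; ring
    exact Nat.eq_of_mul_eq_mul_left hpos this
  refine ⟨s, ?_, h4⟩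
  apply Nat.pos_of_ne_zero
  rintro rfl
  rw [zero_pow (by norm_num), mul_zero] at h4
  omega

theorem pow_dvd_of_sq {p k n : ℕ} (hp : p.Prime) (hn : n ≠ 0) (hk : 1 ≤ k)
    (h : p ^ (2 * k - 1) ∣ n ^ 2) : p ^ k ∣ n := by
  rw [hp.pow_dvd_iff_le_factorization hn]
  rw [hp.pow_dvd_iff_le_factorization (pow_ne_zero _ hn), Nat.factorization_pow] at h
  simp only [Finsupp.smul_apply, smul_eq_mul] at h
  omega

theorem int_root (b c d : ℤ) (r : ℚ) (h : r ^ 3 + b * r ^ 2 + c * r + d = 0) : ∃ z : ℤ, (z : ℚ) = r := by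
  have hm : (Polynomial.X ^ 3 + Polynomial.C b * Polynomial.X ^ 2 + Polynomial.C c * Polynomial.X
      + Polynomial.C d : Polynomial ℤ).Monic := by
    monicity!
  have := isInteger_of_is_root_of_monic hm (r := r) (by simpa using h)
  obtain ⟨z, hz⟩ := this
  exact ⟨z, by simpa using hz⟩

/-- the coprime triple attached to `A² = 4B + (A² - 4B)` -/
theorem triple_of (A B : ℤ) (hA0 : A ≠ 0) (hB0 : B ≠ 0) (hC0 : A ^ 2 - 4 * B ≠ 0) :
    ∃ (G x y z : ℕ) (sB : ℤ), (sB = 1 ∨ sB = -1) ∧ 0 < G ∧ 0 < x ∧ 0 < y ∧ 0 < z ∧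
      Nat.Coprime y z ∧ (x + y = z ∨ x + z = y ∨ y + z = x) ∧
      G ∣ A.natAbs ^ 2 ∧ G ∣ 4 * B.natAbs ∧
      A ^ 2 = (G : ℤ) * x ∧ 4 * B = sB * ((G : ℤ) * y) ∧ |A ^ 2 - 4 * B| = (G : ℤ) * z := by
  set An : ℕ := A.natAbs with hAn
  set Bn : ℕ := B.natAbs with hBn
  have hAn0 : An ≠ 0 := Int.natAbs_ne_zero.mpr hA0
  have hBn0 : Bn ≠ 0 := Int.natAbs_ne_zero.mpr hB0
  have hAsq : A ^ 2 = ((An ^ 2 : ℕ) : ℤ) := by
    rw [hAn]; push_cast; rw [sq_abs]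
  set G : ℕ := Nat.gcd (An ^ 2) (4 * Bn) with hG
  have hGpos : 0 < G := Nat.gcd_pos_of_pos_left _ (by positivity)
  obtain ⟨x, hx⟩ : G ∣ An ^ 2 := Nat.gcd_dvd_left _ _
  obtain ⟨y, hy⟩ : G ∣ 4 * Bn := Nat.gcd_dvd_right _ _
  have hx0 : 0 < x := Nat.pos_of_ne_zero (fun h => by
    rw [h, mul_zero] at hx
    exact hAn0 (pow_eq_zero_iff (by norm_num) |>.mp hx))
  have hy0 : 0 < y := Nat.pos_of_ne_zero (fun h => by rw [h, mul_zero] at hy; omega)
  have hxy : Nat.Coprime x y := by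
    have := Nat.coprime_div_gcd_div_gcd (m := An ^ 2) (n := 4 * Bn) hGpos
    rw [← hG, hx, hy, Nat.mul_div_cancel_left _ hGpos, Nat.mul_div_cancel_left _ hGpos] at this
    exact this
  obtain ⟨sB, hsB, hBs⟩ : ∃ sB : ℤ, (sB = 1 ∨ sB = -1) ∧ B = sB * (Bn : ℤ) := by
    rcases le_total 0 B with h0 | h0
    · exact ⟨1, Or.inl rfl, by rw [hBn, Int.natCast_natAbs, abs_of_nonneg h0]; ring⟩
    · exact ⟨-1, Or.inr rfl, by rw [hBn, Int.natCast_natAbs, abs_of_nonpos h0]; ring⟩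
  have h4B : 4 * B = sB * ((G : ℤ) * y) := by
    have : ((4 * Bn : ℕ) : ℤ) = ((G * y : ℕ) : ℤ) := by rw [hy]
    push_cast at this
    rw [hBs, ← this]; ring
  have hA2 : A ^ 2 = (G : ℤ) * x := by
    rw [hAsq, hx]; push_cast; ring
  have hC : A ^ 2 - 4 * B = (G : ℤ) * ((x : ℤ) - sB * y) := by
    rw [hA2, h4B]; ring
  set z : ℕ := ((x : ℤ) - sB * y).natAbs with hz
  have hz0 : 0 < z := by
    rw [hz]
    apply Nat.pos_of_ne_zero
    rw [Int.natAbs_ne_zero]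
    intro h
    apply hC0
    rw [hC, h, mul_zero]
  have hCz : |A ^ 2 - 4 * B| = (G : ℤ) * z := by
    rw [hC, abs_mul, hz, Int.natCast_natAbs]
    congr 1
    exact abs_of_nonneg (by positivity)
  have hrel : x + y = z ∨ x + z = y ∨ y + z = x := by
    rcases hsB with h | h
    · rw [h, one_mul] at hz
      rcases le_total x y with h1 | h1
      · right; left; omega
      · right; right; omega
    · rw [h] at hz
      left; omega
  have hyz : Nat.Coprime y z := by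
    rcases hrel with h | h | h
    · rw [← h]
      simpa using hxy.symm
    · have : y = z + x := by omega
      rw [this] at hxy ⊢
      have h9 : Nat.Coprime x z := by simpa [Nat.coprime_add_self_right] using hxy
      simpa using h9
    · rw [← h] at hxy
      have : Nat.Coprime z y := by simpa [Nat.coprime_comm] using hxy
      exact this.symm
  exact ⟨G, x, y, z, sB, hsB, hGpos, hx0, hy0, hz0, hyz, hrel, Nat.gcd_dvd_left _ _,
    Nat.gcd_dvd_right _ _, hA2, h4B, hCz⟩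

theorem le_64 (n : ℕ) (hn : 0 < n) (h1 : ∀ p : ℕ, p.Prime → p ∣ n → p = 2) (h2 : ¬ 2 ^ 7 ∣ n) :
    n ≤ 64 := by
  obtain ⟨k, hk⟩ : ∃ k, n = 2 ^ k := by
    refine ⟨n.primeFactorsList.length, ?_⟩
    exact Nat.eq_prime_pow_of_unique_prime_dvd hn.ne' (fun {d} hd hdn => h1 d hd hdn)
  have hk6 : k ≤ 6 := by
    by_contra hcon
    push Not at hcon
    apply h2
    rw [hk]
    exact pow_dvd_pow 2 hcon
  rw [hk]
  calc 2 ^ k ≤ 2 ^ 6 := Nat.pow_le_pow_right (by norm_num) hk6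
    _ = 64 := by norm_num

/-- a rational point of order 2 -/
def HasTwo (W : WeierstrassCurve ℤ) : Prop :=
  ∃ r : ℚ, 4 * r ^ 3 + W.b₂ * r ^ 2 + 2 * W.b₄ * r + W.b₆ = 0

/-- the invariants in terms of `A`, `B` -/
theorem inv_AB (W : WeierstrassCurve ℤ) (h : HasTwo W) : ∃ A B : ℤ,
    W.c₄ = A ^ 2 - 3 * B ∧ 2 * W.c₆ = A * (9 * B - 2 * A ^ 2) ∧
      256 * W.Δ = B ^ 2 * (A ^ 2 - 4 * B) := by
  obtain ⟨r, hr⟩ := h
  obtain ⟨t, ht⟩ : ∃ z : ℤ, (z : ℚ) = 4 * r := by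
    refine int_root W.b₂ (8 * W.b₄) (16 * W.b₆) (4 * r) ?_
    push_cast
    linear_combination 16 * hr
  have htz : t ^ 3 + W.b₂ * t ^ 2 + 8 * W.b₄ * t + 16 * W.b₆ = 0 := by
    have : (t : ℚ) ^ 3 + W.b₂ * t ^ 2 + 8 * W.b₄ * t + 16 * W.b₆ = 0 := by
      rw [ht]
      linear_combination 16 * hr
    exact_mod_cast this
  refine ⟨3 * t + W.b₂, 3 * t ^ 2 + 2 * W.b₂ * t + 8 * W.b₄, ?_, ?_, ?_⟩
  · unfold WeierstrassCurve.c₄
    ring
  · unfold WeierstrassCurve.c₆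
    linear_combination (-27) * htz
  · have h8 := W.b_relation
    have hd : W.Δ = -W.b₂ ^ 2 * W.b₈ - 8 * W.b₄ ^ 3 - 27 * W.b₆ ^ 2 + 9 * W.b₂ * W.b₄ * W.b₆ := rfl
    have e : 256 * W.Δ = -W.b₂ ^ 2 * (64 * (W.b₂ * W.b₆ - W.b₄ ^ 2)) - 4 * (8 * W.b₄) ^ 3
        - 27 * (16 * W.b₆) ^ 2 + 18 * W.b₂ * (8 * W.b₄) * (16 * W.b₆) := by
      rw [hd]
      linear_combination (-64 * W.b₂ ^ 2) * h8
    have e2 : 64 * (W.b₂ * W.b₆ - W.b₄ ^ 2) = 4 * W.b₂ * (16 * W.b₆) - (8 * W.b₄) ^ 2 := by ring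
    have e3 : 16 * W.b₆ = -(t ^ 3 + W.b₂ * t ^ 2 + 8 * W.b₄ * t) := by linarith
    rw [e, e2, e3]
    ring

theorem odd_prime_256 {p : ℕ} (hp : p.Prime) (h2 : p ≠ 2) {n : ℤ} (h : (p : ℤ) ∣ 256 * n) :
    (p : ℤ) ∣ n := by
  have hpc : IsCoprime (p : ℤ) 256 := by
    have : Nat.Coprime p 256 := by
      have : (256 : ℕ) = 2 ^ 8 := by norm_num
      rw [this]
      exact Nat.Coprime.pow_right _ ((Nat.coprime_primes hp Nat.prime_two).mpr h2)
    exact_mod_cast Nat.isCoprime_iff_coprime.mpr this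
  exact hpc.dvd_of_dvd_mul_left h

end Pool.Agent.T2H27.Two
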