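import Pool.Agent.H328R2.ABC.CountL

/-!
Counting bounds for triples one of whose terms is `V s²` (`V` fixed): copied from the starting file
`Pool/Agent/H925R/Two/Counts.lean`, to avoid its imports.
-/

set_option autoImplicit false
set_option linter.unusedVariables false

namespace Pool.Agent.T2H27.Two

open Finset
open Pool.Agent.H328R2.ABC

/-- summation over the fibres of `(W, M)` -/
theorem fiber_sum2 (S : Finset (ℕ × ℕ)) (X : ℕ) (key : ℕ × ℕ → ℕ × ℕ)
    (hkey : ∀ t ∈ S, key t ∈ Icc 1 X ×ˢ Icc 1 X) (B : ℝ)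
    (hB : ∀ W ∈ Icc 1 X, ∀ M ∈ Icc 1 X,
      ((S.filter fun t => key t = (W, M)).card : ℝ) ≤
        B * (1 / (rad W : ℝ) * (1 / (rad M : ℝ)))) :
    (S.card : ℝ) ≤ B * (∑ V ∈ Icc 1 X, (1 : ℝ) / (rad V : ℝ)) ^ 2 := by
  classical
  rw [Finset.card_eq_sum_card_fiberwise (f := key) (t := Icc 1 X ×ˢ Icc 1 X)
    (fun t ht => hkey t ht)]
  push_cast
  rw [sum_product]
  calc ∑ W ∈ Icc 1 X, ∑ M ∈ Icc 1 X, ((S.filter fun t => key t = (W, M)).card : ℝ)
      ≤ ∑ W ∈ Icc 1 X, ∑ M ∈ Icc 1 X, B * (1 / (rad W : ℝ) * (1 / (rad M : ℝ))) :=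
        sum_le_sum fun W hW => sum_le_sum fun M hM => hB W hW M hM
    _ = B * (∑ V ∈ Icc 1 X, (1 : ℝ) / (rad V : ℝ)) ^ 2 := by
        simp only [← mul_sum, ← sum_mul]
        ring

/-- side `r` is `V` times a square -/
def isX (V : ℕ) (r : Fin 3) (a b : ℕ) : Prop := ∃ s : ℕ, 0 < s ∧ side a b r = V * s ^ 2

/-- the square root -/
noncomputable def rt (V n : ℕ) : ℕ := Nat.sqrt (n / V)

theorem rt_spec {V n : ℕ} (hV : 0 < V) (h : ∃ s : ℕ, 0 < s ∧ n = V * s ^ 2) :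
    0 < rt V n ∧ n = V * rt V n ^ 2 := by
  obtain ⟨s, hs, rfl⟩ := h
  have h1 : rt V (V * s ^ 2) = s := by
    unfold rt
    rw [Nat.mul_div_cancel_left _ hV, sq, Nat.sqrt_eq]
  rw [h1]
  exact ⟨hs, rfl⟩

/-- the number of `(W, M)` -/
def PM (J I : Finset ℕ) (a b : ℕ) (r p : Fin 3) : ℕ :=
  rpart (All \ J) (side a b p) * rpart I (side a b r)

/-- the condition of the lattice bound: modulus on side `r`, `x = V s²` on side `k`, other side
`p` -/
def condM (r k p : Fin 3) (J I : Finset ℕ) (Q : ℝ) (a b : ℕ) : Prop :=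
  (PM J I a b r p : ℝ) ≤ Q ∧
  (PM J I a b r p : ℝ) *
    ((side a b k * part J (side a b p) : ℕ) : ℝ) ^ ((1 : ℝ) / 2) * kap a b r
    ≤ Q * (part I (side a b r) : ℝ)

theorem countM (r k p : Fin 3) (hrkp : (k = r + 1 ∧ p = r + 2) ∨ (k = r + 2 ∧ p = r + 1))
    (J I : Finset ℕ) (hJ : ok J 2) (hI : I ⊆ All) (ε : ℝ) (hε : 0 < ε) :
    ∃ C : ℝ, 0 < C ∧ ∀ V : ℕ, 0 < V → ∀ X : ℕ, 1 ≤ X → ∀ Q : ℝ, 1 ≤ Q → ∀ S : Finset (ℕ × ℕ),
      (∀ t ∈ S, Adm X t ∧ isX V k t.1 t.2 ∧ condM r k p J I Q t.1 t.2) →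
      (S.card : ℝ) ≤ C * (X : ℝ) ^ ε * Q := by
  classical
  obtain ⟨C2, hC2, hrad⟩ := sum_inv_rad (ε / 4) (by positivity)
  obtain ⟨C3, hC3, hroots⟩ := roots 2 (by norm_num) (ε / 4) (by positivity)
  obtain ⟨C4, hC4, hlog⟩ := h81_log_bound (ε / 4) (by positivity)
  refine ⟨C4 * C3 * 257 * C2 ^ 2, by positivity, ?_⟩
  intro V hV X hX Q hQ S hS
  have hXpos : (0 : ℝ) < X := by exact_mod_cast hX
  choose yf hyf0 hyf using fun n => exists_root (by norm_num) hJ n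
  let key : ℕ × ℕ → ℕ × ℕ := fun t =>
    (part (All \ J) (side t.1 t.2 p), part I (side t.1 t.2 r))
  have hpos : ∀ t ∈ S, ∀ i, 0 < side t.1 t.2 i := by
    intro t ht i
    have h4 := (hS t ht).1
    exact h81_side_pos h4.1 (lt_of_lt_of_le h4.1 h4.2.1) i
  have hle : ∀ t ∈ S, ∀ i, side t.1 t.2 i ≤ X := by
    intro t ht i
    exact h81_side_le (hS t ht).1.2.2.2 i
  have hkey : ∀ t ∈ S, key t ∈ Icc 1 X ×ˢ Icc 1 X := by
    intro t ht
    simp only [key, mem_product, mem_Icc]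
    exact ⟨⟨part_pos _ _, h81_part_le (hpos t ht _) (hle t ht _)⟩,
      part_pos _ _, h81_part_le (hpos t ht _) (hle t ht _)⟩
  have hfib : ∀ W ∈ Icc 1 X, ∀ M ∈ Icc 1 X,
      ((S.filter fun t => key t = (W, M)).card : ℝ) ≤
        (C4 * C3 * 257 * (X : ℝ) ^ (ε / 4) * (X : ℝ) ^ (ε / 4) * Q) *
          (1 / (rad W : ℝ) * (1 / (rad M : ℝ))) := by
    intro W hW M hM
    rw [mem_Icc] at hW hM
    have hP : (0 : ℝ) < (rad W : ℝ) * rad M := by
      have := rad_pos W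
      have := rad_pos M
      positivity
    set P : ℝ := (rad W : ℝ) * rad M with hPdef
    have hrhs : (C4 * C3 * 257 * (X : ℝ) ^ (ε / 4) * (X : ℝ) ^ (ε / 4) * Q) *
          (1 / (rad W : ℝ) * (1 / (rad M : ℝ))) =
        (C4 * (X : ℝ) ^ (ε / 4)) * ((C3 * (X : ℝ) ^ (ε / 4)) * (257 * (Q / P))) := by
      rw [hPdef]
      field_simp
    rw [hrhs]
    rcases (S.filter fun t => key t = (W, M)).eq_empty_or_nonempty with hemp | hne
    · rw [hemp, card_empty, Nat.cast_zero]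
      positivity
    let sx : ℕ × ℕ → ℕ := fun t => rt V (side t.1 t.2 k)
    let vy : ℕ × ℕ → ℕ := fun t => yf (side t.1 t.2 p)
    have hel : ∀ t ∈ S.filter (fun t => key t = (W, M)),
        Adm X t ∧ 0 < sx t ∧ 0 < vy t ∧
        side t.1 t.2 k = V * sx t ^ 2 ∧ side t.1 t.2 p = W * vy t ^ 2 ∧
        M ∣ side t.1 t.2 r ∧ (sx t : ℝ) * vy t * kap t.1 t.2 r ≤ (Q / P) * M ∧
        P ≤ Q := by
      intro t ht
      rw [mem_filter] at ht
      obtain ⟨ht, hk⟩ := ht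
      simp only [key, Prod.mk.injEq] at hk
      obtain ⟨e1, e3⟩ := hk
      have c1 := part_compl J (hpos t ht p).ne'
      rw [← hyf, e1] at c1
      obtain ⟨hsx0, hsx⟩ := rt_spec hV (hS t ht).2.1
      have c3 := (hS t ht).2.2
      unfold condM PM at c3
      rw [← rad_part, ← rad_part, e1, e3, ← hyf] at c3
      have hkap : 0 ≤ kap t.1 t.2 r := by
        unfold kap
        split_ifs
        · positivity
        · norm_num
      have hroot : (sx t : ℝ) * (vy t : ℝ) ≤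
          ((side t.1 t.2 k * (yf (side t.1 t.2 p)) ^ 2 : ℕ) : ℝ) ^ ((1 : ℝ) / 2) := by
        have h5 : ((sx t * vy t : ℕ) : ℝ) ^ 2 ≤
            ((side t.1 t.2 k * (yf (side t.1 t.2 p)) ^ 2 : ℕ) : ℝ) := by
          have h6 : (sx t * vy t) ^ 2 ≤ side t.1 t.2 k * (yf (side t.1 t.2 p)) ^ 2 := by
            rw [mul_pow]
            apply Nat.mul_le_mul_right
            rw [hsx]
            exact Nat.le_mul_of_pos_left _ hV
          exact_mod_cast h6
        have h7 : (((sx t * vy t : ℕ) : ℝ) ^ 2) ^ ((1 : ℝ) / 2) = (sx t : ℝ) * vy t := by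
          rw [← Real.rpow_natCast, ← Real.rpow_mul (by positivity)]
          push_cast
          norm_num
        rw [← h7]
        exact Real.rpow_le_rpow (by positivity) h5 (by norm_num)
      obtain ⟨c4, c5⟩ := c3
      refine ⟨(hS t ht).1, hsx0, hyf0 _, hsx, c1.symm, ?_, ?_, ?_⟩
      · rw [← e3]
        exact part_dvd I (hpos t ht r).ne'
      · rw [div_mul_eq_mul_div, le_div_iff₀ hP]
        calc (sx t : ℝ) * (vy t : ℝ) * kap t.1 t.2 r * P
            = ((rad W * rad M : ℕ) : ℝ) * ((sx t : ℝ) * (vy t : ℝ)) * kap t.1 t.2 r := by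
              rw [hPdef]
              push_cast
              ring
          _ ≤ ((rad W * rad M : ℕ) : ℝ) *
              ((side t.1 t.2 k * (yf (side t.1 t.2 p)) ^ 2 : ℕ) : ℝ) ^ ((1 : ℝ) / 2)
                * kap t.1 t.2 r := by
              gcongr
          _ ≤ Q * M := c5
      · rw [hPdef]
        push_cast at c4
        exact c4
    obtain ⟨t0, ht0⟩ := hne
    have hPQ : P ≤ Q := (hel t0 ht0).2.2.2.2.2.2.2
    have hQP : 1 ≤ Q / P := by
      rw [le_div_iff₀ hP, one_mul]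
      exact hPQ
    have hM1 : (1 : ℝ) ≤ M := by exact_mod_cast hM.1
    have hMX : (M : ℝ) ≤ X := by exact_mod_cast hM.2
    have hρM : C3 * (M : ℝ) ^ (ε / 4) ≤ C3 * (X : ℝ) ^ (ε / 4) :=
      mul_le_mul_of_nonneg_left (Real.rpow_le_rpow (by linarith) hMX (by positivity)) hC3.le
    have h1 : ((S.filter fun t => key t = (W, M)).card : ℝ) ≤
        ((Nat.log 2 X : ℝ) + 1) ^ 4 * ((C3 * (X : ℝ) ^ (ε / 4)) * (1 + 256 * (Q / P))) := by
      rcases hrkp with ⟨hk1, hp1⟩ | ⟨hk1, hp1⟩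
      · subst hk1 hp1
        exact h81_fiberL r 2 (by norm_num) V W M X hV hW.1 hM.1 (Q / P) (C3 * (X : ℝ) ^ (ε / 4)) hQP
          (by positivity) (fun u hu => (hroots M hM.1 u hu).trans hρM)
          (S.filter fun t => key t = (W, M)) (fun t => (sx t, vy t)) (fun t ht => by
            obtain ⟨a1, a2, a3, a4, a5, a6, a7, _⟩ := hel t ht
            exact ⟨a1, a2, a3, a4, a5, a6, a7⟩)
      · subst hk1 hp1
        exact h81_fiberL r 2 (by norm_num) W V M X hW.1 hV hM.1 (Q / P) (C3 * (X : ℝ) ^ (ε / 4)) hQP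
          (by positivity) (fun u hu => (hroots M hM.1 u hu).trans hρM)
          (S.filter fun t => key t = (W, M)) (fun t => (vy t, sx t)) (fun t ht => by
            obtain ⟨a1, a2, a3, a4, a5, a6, a7, _⟩ := hel t ht
            refine ⟨a1, a3, a2, a5, a4, a6, ?_⟩
            simp only
            rw [mul_comm (vy t : ℝ)]
            exact a7)
    refine h1.trans ?_
    apply mul_le_mul (hlog X hX) _ (by positivity) (by positivity)
    apply mul_le_mul_of_nonneg_left _ (by positivity)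
    linarith
  have hfin := fiber_sum2 S X key hkey _ hfib
  have hr := hrad X hX
  have hr0 : 0 ≤ ∑ V ∈ Icc 1 X, (1 : ℝ) / (rad V : ℝ) := sum_nonneg fun _ _ => by positivity
  calc (S.card : ℝ) ≤ (C4 * C3 * 257 * (X : ℝ) ^ (ε / 4) * (X : ℝ) ^ (ε / 4) * Q) *
        (∑ V ∈ Icc 1 X, (1 : ℝ) / (rad V : ℝ)) ^ 2 := hfin
    _ ≤ (C4 * C3 * 257 * (X : ℝ) ^ (ε / 4) * (X : ℝ) ^ (ε / 4) * Q) *
        (C2 * (X : ℝ) ^ (ε / 4)) ^ 2 := by
        apply mul_le_mul_of_nonneg_left _ (by positivity)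
        exact pow_le_pow_left₀ hr0 hr 2
    _ = C4 * C3 * 257 * C2 ^ 2 * ((X : ℝ) ^ (ε / 4)) ^ 4 * Q := by ring
    _ = C4 * C3 * 257 * C2 ^ 2 * (X : ℝ) ^ ε * Q := by
        congr 2
        rw [← Real.rpow_natCast, ← Real.rpow_mul hXpos.le]
        congr 1
        push_cast
        ring

end Pool.Agent.T2H27.Two
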