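import Pool.Agent.T2H27.Two.CM

/-!
The choice between the four lattice bounds: the product of the four main terms is `N m²`.
-/

set_option autoImplicit false

namespace Pool.Agent.T2H27.Two

open Finset
open Pool.Agent.H328R2.ABC

theorem fac (n : ℕ) (hn : n ≠ 0) : ∃ x s c : ℕ, 0 < x ∧ 0 < s ∧ 0 < c ∧
    rad n = x * s * c ∧ rpart (All \ ∅) n = x * s * c ∧ rpart (All \ {2}) n = x * c ∧
    rpart {2, 3, 4, 5} n = s * c ∧ part ∅ n = 1 ∧ part {2} n = s ^ 2 ∧
    x * part {2, 3, 4, 5} n = n ∧ x * s ^ 2 * c ^ 3 ≤ n := by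
  have hAll : rad n = rpart All n := rad_eq_rpart_All hn
  have h0 : rpart (All \ ∅) n = rpart All n := by rw [sdiff_empty]
  have h12345 : rpart All n = rpart {1} n * rpart {2} n * (rpart {3} n * rpart {4} n * rpart {5} n) := by
    rw [rpart_prod (Subset.refl _)]
    unfold All
    rw [prod_insert (by decide), prod_insert (by decide), prod_insert (by decide),
      prod_insert (by decide), prod_singleton]
    ring
  have h1345 : rpart (All \ {2}) n = rpart {1} n * (rpart {3} n * rpart {4} n * rpart {5} n) := by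
    have e : All \ {2} = ({1, 3, 4, 5} : Finset ℕ) := by decide
    rw [e, rpart_prod (by decide)]
    rw [prod_insert (by decide), prod_insert (by decide), prod_insert (by decide), prod_singleton]
    ring
  have h2345 : rpart {2, 3, 4, 5} n = rpart {2} n * (rpart {3} n * rpart {4} n * rpart {5} n) := by
    rw [rpart_prod (by decide)]
    rw [prod_insert (by decide), prod_insert (by decide), prod_insert (by decide), prod_singleton]
    ring
  have p2 : part {2} n = rpart {2} n ^ 2 := part_single (by norm_num) (by norm_num) n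
  have p1 : part {1} n = rpart {1} n := by
    have := part_single (i := 1) (by norm_num) (by norm_num) n
    rwa [pow_one] at this
  have p2345 : part {2, 3, 4, 5} n = rpart {2} n ^ 2 * (rpart {3} n ^ 3 * rpart {4} n ^ 4 * part {5} n) := by
    rw [part_prod (by decide)]
    rw [prod_insert (by decide), prod_insert (by decide), prod_insert (by decide), prod_singleton,
      p2, part_single (by norm_num) (by norm_num), part_single (by norm_num) (by norm_num)]
    ring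
  have hcompl := part_compl {1} hn
  have e1 : All \ {1} = ({2, 3, 4, 5} : Finset ℕ) := by decide
  rw [e1, p1] at hcompl
  have r3 := rpart_pos {3} n
  have r4 := rpart_pos {4} n
  have r5 := rpart_pos {5} n
  refine ⟨rpart {1} n, rpart {2} n, rpart {3} n * rpart {4} n * rpart {5} n, rpart_pos _ _,
    rpart_pos _ _, by positivity, by rw [hAll, h12345], by rw [h0, h12345], h1345, h2345,
    by simp [part], p2, by rw [mul_comm]; exact hcompl, ?_⟩
  calc rpart {1} n * rpart {2} n ^ 2 * (rpart {3} n * rpart {4} n * rpart {5} n) ^ 3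
      = rpart {1} n * (rpart {2} n ^ 2 * (rpart {3} n ^ 3 * rpart {4} n ^ 3 * rpart {5} n ^ 3)) := by
        ring
    _ ≤ rpart {1} n * (rpart {2} n ^ 2 * (rpart {3} n ^ 3 * rpart {4} n ^ 4 * part {5} n)) := by
        have a4 : rpart {4} n ^ 3 ≤ rpart {4} n ^ 4 := Nat.pow_le_pow_right r4 (by norm_num)
        have a5 : rpart {5} n ^ 3 ≤ part {5} n :=
          (Nat.pow_le_pow_right r5 (by norm_num)).trans (rpart_five n)
        gcongr
    _ = n := by rw [← p2345, mul_comm]; exact hcompl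

/-- the four ways of counting -/
def any4 (k y z : Fin 3) (Q : ℝ) (a b : ℕ) : Prop :=
  condM z k y ∅ {2, 3, 4, 5} Q a b ∨ condM y k z ∅ {2, 3, 4, 5} Q a b ∨
  condM z k y {2} {2, 3, 4, 5} Q a b ∨ condM y k z {2} {2, 3, 4, 5} Q a b

theorem side_le' {a b : ℕ} (r : Fin 3) : side a b r ≤ a + b := by
  fin_cases r
  · show a ≤ a + b
    omega
  · show b ≤ a + b
    omega
  · show a + b ≤ a + b
    omega

/-- `kap / side ≤ 2 / (a + b)` -/
theorem kap_side {a b : ℕ} (ha : 0 < a) (hab : a ≤ b) (r : Fin 3) :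
    kap a b r * ((a + b : ℕ) : ℝ) ≤ 2 * (side a b r : ℝ) := by
  have hb : 0 < b := lt_of_lt_of_le ha hab
  have h0 : (0 : ℝ) < ((a + b : ℕ) : ℝ) := by exact_mod_cast Nat.add_pos_left ha b
  have haR : (a : ℝ) ≤ b := by exact_mod_cast hab
  have ha0 : (0 : ℝ) < a := by exact_mod_cast ha
  fin_cases r
  · show kap a b 0 * ((a + b : ℕ) : ℝ) ≤ 2 * (a : ℝ)
    rw [h81_kap0, div_mul_cancel₀ _ h0.ne']
    linarith
  · show kap a b 1 * ((a + b : ℕ) : ℝ) ≤ 2 * (b : ℝ)
    rw [h81_kap1]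
    push_cast
    linarith
  · show kap a b 2 * ((a + b : ℕ) : ℝ) ≤ 2 * ((a + b : ℕ) : ℝ)
    rw [h81_kap2]
    linarith

theorem kap_nonneg (a b : ℕ) (r : Fin 3) : 0 ≤ kap a b r := by
  unfold kap
  split_ifs
  · positivity
  · norm_num

/-- the second condition of the lattice bound always holds -/
theorem second {a b : ℕ} (ha : 0 < a) (hab : a ≤ b) (k r : Fin 3) (N P x s M Q : ℝ)
    (hN : 0 ≤ N) (hP : P * s * x = N) (hs : 0 < s) (hx : 0 < x) (hM : x * M = (side a b r : ℝ))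
    (hQ : 2 * (N / √((a + b : ℕ) : ℝ)) ≤ Q) :
    P * ((side a b k : ℝ) * s ^ 2) ^ ((1 : ℝ) / 2) * kap a b r ≤ Q * M := by
  have hm0 : (0 : ℝ) < ((a + b : ℕ) : ℝ) := by exact_mod_cast Nat.add_pos_left ha b
  set m : ℝ := ((a + b : ℕ) : ℝ) with hm
  have hsq : √m * √m = m := Real.mul_self_sqrt hm0.le
  have hsm : 0 < √m := Real.sqrt_pos.2 hm0
  have hk : (side a b k : ℝ) ≤ m := by
    rw [hm]
    exact_mod_cast side_le' k
  have h1 : ((side a b k : ℝ) * s ^ 2) ^ ((1 : ℝ) / 2) ≤ √m * s := by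
    rw [← Real.sqrt_eq_rpow]
    calc √((side a b k : ℝ) * s ^ 2) ≤ √(m * s ^ 2) := Real.sqrt_le_sqrt (by gcongr)
      _ = √m * s := by rw [Real.sqrt_mul hm0.le, Real.sqrt_sq hs.le]
  have hkap := kap_side ha hab r
  have hk0 := kap_nonneg a b r
  rw [← hm] at hkap
  have hP0 : 0 ≤ P := by
    by_contra hcon
    push Not at hcon
    have : P * (s * x) < 0 := mul_neg_of_neg_of_pos hcon (by positivity)
    nlinarith
  have hM0 : 0 ≤ M := by
    by_contra hcon
    push Not at hcon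
    have h2 : x * M < 0 := mul_neg_of_pos_of_neg hx hcon
    rw [hM] at h2
    have : (0 : ℝ) ≤ (side a b r : ℝ) := Nat.cast_nonneg _
    linarith
  -- multiply by x √m
  have hpos : 0 < x * √m := by positivity
  have h2 : 2 * N ≤ Q * √m := by
    have := mul_le_mul_of_nonneg_right hQ hsm.le
    calc 2 * N = 2 * (N / √m) * √m := by field_simp
      _ ≤ _ := this
  refine le_of_mul_le_mul_right ?_ hpos
  calc P * ((side a b k : ℝ) * s ^ 2) ^ ((1 : ℝ) / 2) * kap a b r * (x * √m)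
      ≤ P * (√m * s) * kap a b r * (x * √m) := by gcongr
    _ = (P * s * x) * (kap a b r * (√m * √m)) := by ring
    _ = N * (kap a b r * m) := by rw [hP, hsq]
    _ ≤ N * (2 * (side a b r : ℝ)) := by gcongr
    _ = 2 * N * (x * M) := by rw [hM]; ring
    _ ≤ Q * √m * (x * M) := mul_le_mul_of_nonneg_right h2 (by positivity)
    _ = Q * M * (x * √m) := by ring

theorem key4 (k y z : Fin 3) (hyz : y ≠ z) (a b : ℕ) (ha : 0 < a) (hab : a ≤ b) (Q : ℝ)
    (h1 : 2 * ((rad (side a b y) * rad (side a b z) : ℕ) / √((a + b : ℕ) : ℝ)) ≤ Q)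
    (h2 : ((rad (side a b y) * rad (side a b z) : ℕ) : ℝ) * ((a + b : ℕ) : ℝ) ^ 2 ≤ Q ^ 4) :
    any4 k y z Q a b := by
  have hb : 0 < b := lt_of_lt_of_le ha hab
  have hQ0 : 0 ≤ Q := le_trans (by positivity) h1
  obtain ⟨x, s, c, hx, hs, hc, e1, e2, e3, e4, e5, e6, e7, e8⟩ :=
    fac (side a b y) (h81_side_pos ha hb y).ne'
  obtain ⟨x', s', c', hx', hs', hc', f1, f2, f3, f4, f5, f6, f7, f8⟩ :=
    fac (side a b z) (h81_side_pos ha hb z).ne'
  have hxR : (0 : ℝ) < x := by exact_mod_cast hx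
  have hsR : (0 : ℝ) < s := by exact_mod_cast hs
  have hcR : (0 : ℝ) < c := by exact_mod_cast hc
  have hxR' : (0 : ℝ) < x' := by exact_mod_cast hx'
  have hsR' : (0 : ℝ) < s' := by exact_mod_cast hs'
  have hcR' : (0 : ℝ) < c' := by exact_mod_cast hc'
  set N : ℝ := (x : ℝ) * s * c * (x' * s' * c') with hN
  have hNe : ((rad (side a b y) * rad (side a b z) : ℕ) : ℝ) = N := by
    rw [e1, f1, hN]
    push_cast
    ring
  have hNe' : ((rad (side a b y) * rad (side a b z) : ℕ)) = ((x * s * c * (x' * s' * c') : ℕ)) := by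
    rw [e1, f1]
  rw [hNe] at h1 h2
  have hN0 : 0 < N := by positivity
  have e7R : (x : ℝ) * (part {2, 3, 4, 5} (side a b y) : ℝ) = (side a b y : ℝ) := by
    exact_mod_cast e7
  have f7R : (x' : ℝ) * (part {2, 3, 4, 5} (side a b z) : ℝ) = (side a b z : ℝ) := by
    exact_mod_cast f7
  by_contra hcon
  unfold any4 at hcon
  push Not at hcon
  obtain ⟨c1, c2, c3, c4⟩ := hcon
  -- the four first terms
  have g1 : Q < (x * s * c : ℝ) * (s' * c') := by
    by_contra hcon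
    push Not at hcon
    apply c1
    unfold condM PM
    rw [e2, f4, e5]
    refine ⟨by push_cast; exact hcon, ?_⟩
    have := second ha hab k z N ((x * s * c : ℝ) * (s' * c')) x' 1 (part {2, 3, 4, 5} (side a b z)) Q
      hN0.le (by rw [hN]; ring) one_pos hxR' f7R h1
    push_cast
    rwa [one_pow] at this
  have g2 : Q < (x' * s' * c' : ℝ) * (s * c) := by
    by_contra hcon
    push Not at hcon
    apply c2
    unfold condM PM
    rw [f2, e4, f5]
    refine ⟨by push_cast; exact hcon, ?_⟩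
    have := second ha hab k y N ((x' * s' * c' : ℝ) * (s * c)) x 1 (part {2, 3, 4, 5} (side a b y)) Q
      hN0.le (by rw [hN]; ring) one_pos hxR e7R h1
    push_cast
    rwa [one_pow] at this
  have g3 : Q < (x * c : ℝ) * (s' * c') := by
    by_contra hcon
    push Not at hcon
    apply c3
    unfold condM PM
    rw [e3, f4, e6]
    refine ⟨by push_cast; exact hcon, ?_⟩
    have := second ha hab k z N ((x * c : ℝ) * (s' * c')) x' s (part {2, 3, 4, 5} (side a b z)) Q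
      hN0.le (by rw [hN]; ring) hsR hxR' f7R h1
    push_cast
    exact this
  have g4 : Q < (x' * c' : ℝ) * (s * c) := by
    by_contra hcon
    push Not at hcon
    apply c4
    unfold condM PM
    rw [f3, e4, f6]
    refine ⟨by push_cast; exact hcon, ?_⟩
    have := second ha hab k y N ((x' * c' : ℝ) * (s * c)) x s' (part {2, 3, 4, 5} (side a b y)) Q
      hN0.le (by rw [hN]; ring) hsR' hxR e7R h1
    push_cast
    exact this
  -- sizes
  set m : ℝ := ((a + b : ℕ) : ℝ) with hm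
  have hm0 : 0 < m := by rw [hm]; exact_mod_cast Nat.add_pos_left ha b
  have k1 : (x : ℝ) * s ^ 2 * c ^ 3 ≤ m := by
    rw [hm]
    exact_mod_cast e8.trans (side_le' y)
  have k2 : (x' : ℝ) * s' ^ 2 * c' ^ 3 ≤ m := by
    rw [hm]
    exact_mod_cast f8.trans (side_le' z)
  have k3 : ((x : ℝ) * s ^ 2 * c ^ 3) * (x' * s' ^ 2 * c' ^ 3) ≤ m ^ 2 := by
    calc ((x : ℝ) * s ^ 2 * c ^ 3) * (x' * s' ^ 2 * c' ^ 3) ≤ m * m :=
          mul_le_mul k1 k2 (by positivity) hm0.le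
      _ = m ^ 2 := by ring
  -- product of the four terms
  have p1 : Q * Q < ((x * s * c : ℝ) * (s' * c')) * ((x' * s' * c' : ℝ) * (s * c)) :=
    mul_lt_mul'' g1 g2 hQ0 hQ0
  have p2 : Q * Q < ((x * c : ℝ) * (s' * c')) * ((x' * c' : ℝ) * (s * c)) :=
    mul_lt_mul'' g3 g4 hQ0 hQ0
  have p3 : (Q * Q) * (Q * Q) < (((x * s * c : ℝ) * (s' * c')) * ((x' * s' * c' : ℝ) * (s * c))) *
      (((x * c : ℝ) * (s' * c')) * ((x' * c' : ℝ) * (s * c))) :=
    mul_lt_mul'' p1 p2 (by positivity) (by positivity)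
  have p4 : (((x * s * c : ℝ) * (s' * c')) * ((x' * s' * c' : ℝ) * (s * c))) *
      (((x * c : ℝ) * (s' * c')) * ((x' * c' : ℝ) * (s * c))) =
      N * (((x : ℝ) * s ^ 2 * c ^ 3) * (x' * s' ^ 2 * c' ^ 3)) := by
    rw [hN]
    ring
  have p5 : N * (((x : ℝ) * s ^ 2 * c ^ 3) * (x' * s' ^ 2 * c' ^ 3)) ≤ N * m ^ 2 := by gcongr
  have p6 : (Q * Q) * (Q * Q) = Q ^ 4 := by ring
  linarith

/-- the number of the triples with a side `V s²`, `rad y · rad z ≤ Y` and `m ≤ a + b` -/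
theorem count4 (k y z : Fin 3) (hky : k ≠ y) (hkz : k ≠ z) (hyz : y ≠ z) (ε : ℝ) (hε : 0 < ε) :
    ∃ C : ℝ, 0 < C ∧ ∀ V : ℕ, 0 < V → ∀ X : ℕ, 1 ≤ X → ∀ Y m : ℝ, 1 ≤ Y → 1 ≤ m → ∀ S : Finset (ℕ × ℕ),
      (∀ t ∈ S, Adm X t ∧ isX V k t.1 t.2 ∧ m ≤ ((t.1 + t.2 : ℕ) : ℝ) ∧
        ((t.1 + t.2 : ℕ) : ℝ) ≤ 2 * m ∧
        ((rad (side t.1 t.2 y) * rad (side t.1 t.2 z) : ℕ) : ℝ) ≤ Y) →
      (S.card : ℝ) ≤ C * (X : ℝ) ^ ε * (Y / √m + Y ^ ((1 : ℝ) / 4) * √m) := by
  classical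
  have hroles : (k = z + 1 ∧ y = z + 2) ∨ (k = z + 2 ∧ y = z + 1) := by
    revert k y z
    decide
  have hroles' : (k = y + 1 ∧ z = y + 2) ∨ (k = y + 2 ∧ z = y + 1) := by
    revert k y z
    decide
  have ok0 : ok (∅ : Finset ℕ) 2 := ⟨by decide, Or.inr (by decide)⟩
  have ok2 : ok ({2} : Finset ℕ) 2 := ⟨by decide, Or.inr (by decide)⟩
  have sub : ({2, 3, 4, 5} : Finset ℕ) ⊆ All := by decide
  obtain ⟨C1, hC1, h1⟩ := countM z k y hroles ∅ {2, 3, 4, 5} ok0 sub ε hε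
  obtain ⟨C2, hC2, h2⟩ := countM y k z hroles' ∅ {2, 3, 4, 5} ok0 sub ε hε
  obtain ⟨C3, hC3, h3⟩ := countM z k y hroles {2} {2, 3, 4, 5} ok2 sub ε hε
  obtain ⟨C4, hC4, h4⟩ := countM y k z hroles' {2} {2, 3, 4, 5} ok2 sub ε hε
  refine ⟨(C1 + C2 + C3 + C4) * 2, by positivity, ?_⟩
  intro V hV X hX Y m hY hm S hS
  set Q : ℝ := 2 * (Y / √m + Y ^ ((1 : ℝ) / 4) * √m) with hQdef
  have hm0 : 0 < m := by linarith
  have hsm : 1 ≤ √m := Real.one_le_sqrt.2 hm
  have hY4 : 1 ≤ Y ^ ((1 : ℝ) / 4) := Real.one_le_rpow hY (by norm_num)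
  have hQ1 : 1 ≤ Q := by
    rw [hQdef]
    have h5 : 0 ≤ Y / √m := by positivity
    have h6 : 1 ≤ Y ^ ((1 : ℝ) / 4) * √m := one_le_mul_of_one_le_of_one_le hY4 hsm
    linarith
  have hany : ∀ t ∈ S, any4 k y z Q t.1 t.2 := by
    intro t ht
    obtain ⟨⟨ha, hab, -, -⟩, -, hm1, hm2, hN⟩ := hS t ht
    refine key4 k y z hyz t.1 t.2 ha hab Q ?_ ?_
    · have h5 : ((rad (side t.1 t.2 y) * rad (side t.1 t.2 z) : ℕ) : ℝ) /
          √((t.1 + t.2 : ℕ) : ℝ) ≤ Y / √m := by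
        have h6 : √m ≤ √((t.1 + t.2 : ℕ) : ℝ) := Real.sqrt_le_sqrt hm1
        gcongr
      have h7 : 0 ≤ Y ^ ((1 : ℝ) / 4) * √m := by positivity
      rw [hQdef]
      linarith
    · have h5 : (Y ^ ((1 : ℝ) / 4)) ^ 4 = Y := by
        rw [← Real.rpow_natCast, ← Real.rpow_mul (by linarith)]
        norm_num
      have h6 : √m ^ 4 = m ^ 2 := by
        rw [show 4 = 2 * 2 by norm_num, pow_mul, Real.sq_sqrt hm0.le]
      have h7 : 0 ≤ Y / √m := by positivity
      have h8 : 2 * (Y ^ ((1 : ℝ) / 4) * √m) ≤ Q := by rw [hQdef]; linarith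
      calc ((rad (side t.1 t.2 y) * rad (side t.1 t.2 z) : ℕ) : ℝ) * ((t.1 + t.2 : ℕ) : ℝ) ^ 2
          ≤ Y * (2 * m) ^ 2 := by gcongr
        _ ≤ 16 * (Y * m ^ 2) := by nlinarith [mul_pos (by linarith : (0:ℝ) < Y) (pow_pos hm0 2)]
        _ = (2 * (Y ^ ((1 : ℝ) / 4) * √m)) ^ 4 := by
            rw [mul_pow, mul_pow, h5, h6]
            norm_num
        _ ≤ Q ^ 4 := by gcongr
  have hsub : S ⊆ (S.filter (fun t => condM z k y ∅ {2, 3, 4, 5} Q t.1 t.2)) ∪
      ((S.filter (fun t => condM y k z ∅ {2, 3, 4, 5} Q t.1 t.2)) ∪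
      ((S.filter (fun t => condM z k y {2} {2, 3, 4, 5} Q t.1 t.2)) ∪
      (S.filter (fun t => condM y k z {2} {2, 3, 4, 5} Q t.1 t.2)))) := by
    intro t ht
    have h := hany t ht
    unfold any4 at h
    simp only [mem_union, mem_filter]
    tauto
  have hcard := card_le_card hsub
  have b1 := h1 V hV X hX Q hQ1 (S.filter (fun t => condM z k y ∅ {2, 3, 4, 5} Q t.1 t.2))
    (fun t ht => by
      rw [mem_filter] at ht
      exact ⟨(hS t ht.1).1, (hS t ht.1).2.1, ht.2⟩)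
  have b2 := h2 V hV X hX Q hQ1 (S.filter (fun t => condM y k z ∅ {2, 3, 4, 5} Q t.1 t.2))
    (fun t ht => by
      rw [mem_filter] at ht
      exact ⟨(hS t ht.1).1, (hS t ht.1).2.1, ht.2⟩)
  have b3 := h3 V hV X hX Q hQ1 (S.filter (fun t => condM z k y {2} {2, 3, 4, 5} Q t.1 t.2))
    (fun t ht => by
      rw [mem_filter] at ht
      exact ⟨(hS t ht.1).1, (hS t ht.1).2.1, ht.2⟩)
  have b4 := h4 V hV X hX Q hQ1 (S.filter (fun t => condM y k z {2} {2, 3, 4, 5} Q t.1 t.2))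
    (fun t ht => by
      rw [mem_filter] at ht
      exact ⟨(hS t ht.1).1, (hS t ht.1).2.1, ht.2⟩)
  have u1 := card_union_le (S.filter (fun t => condM z k y ∅ {2, 3, 4, 5} Q t.1 t.2))
      ((S.filter (fun t => condM y k z ∅ {2, 3, 4, 5} Q t.1 t.2)) ∪
      ((S.filter (fun t => condM z k y {2} {2, 3, 4, 5} Q t.1 t.2)) ∪
      (S.filter (fun t => condM y k z {2} {2, 3, 4, 5} Q t.1 t.2))))
  have u2 := card_union_le (S.filter (fun t => condM y k z ∅ {2, 3, 4, 5} Q t.1 t.2))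
      ((S.filter (fun t => condM z k y {2} {2, 3, 4, 5} Q t.1 t.2)) ∪
      (S.filter (fun t => condM y k z {2} {2, 3, 4, 5} Q t.1 t.2)))
  have u3 := card_union_le (S.filter (fun t => condM z k y {2} {2, 3, 4, 5} Q t.1 t.2))
      (S.filter (fun t => condM y k z {2} {2, 3, 4, 5} Q t.1 t.2))
  have hall : (S.card : ℝ) ≤
      ((S.filter (fun t => condM z k y ∅ {2, 3, 4, 5} Q t.1 t.2)).card : ℝ) +
      (((S.filter (fun t => condM y k z ∅ {2, 3, 4, 5} Q t.1 t.2)).card : ℝ) +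
      (((S.filter (fun t => condM z k y {2} {2, 3, 4, 5} Q t.1 t.2)).card : ℝ) +
      ((S.filter (fun t => condM y k z {2} {2, 3, 4, 5} Q t.1 t.2)).card : ℝ))) := by
    exact_mod_cast hcard.trans (u1.trans (Nat.add_le_add_left (u2.trans
      (Nat.add_le_add_left u3 _)) _))
  have e : (C1 + C2 + C3 + C4) * 2 * (X : ℝ) ^ ε * (Y / √m + Y ^ ((1 : ℝ) / 4) * √m) =
      C1 * (X : ℝ) ^ ε * Q + (C2 * (X : ℝ) ^ ε * Q + (C3 * (X : ℝ) ^ ε * Q +
        C4 * (X : ℝ) ^ ε * Q)) := by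
    rw [hQdef]
    ring
  rw [e]
  linarith

end Pool.Agent.T2H27.Two
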