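import Pool.Agent.T2H27.Two.Key
import Pool.Agent.T2H27.Two.Ari

/-!
The count of the triples, without the order of the sides; the triple attached to a curve.
-/

set_option autoImplicit false

namespace Pool.Agent.T2H27.Two

open Finset
open Pool.Agent.H328R2.ABC

/-- the largest term -/
def mx (t : ℕ × (ℕ × ℕ)) : ℕ := max t.1 (max t.2.1 t.2.2)

/-- triples `(x, (y, z))` -/
def TB (V : ℕ) (t : ℕ × (ℕ × ℕ)) : Prop :=
  0 < t.1 ∧ 0 < t.2.1 ∧ 0 < t.2.2 ∧ Nat.Coprime t.2.1 t.2.2 ∧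
    (t.1 + t.2.1 = t.2.2 ∨ t.1 + t.2.2 = t.2.1 ∨ t.2.1 + t.2.2 = t.1) ∧
    (∃ s : ℕ, 0 < s ∧ t.1 = V * s ^ 2)

def TC (V N : ℕ) (Y m : ℝ) (t : ℕ × (ℕ × ℕ)) : Prop :=
  TB V t ∧ mx t ≤ N ∧ m ≤ (mx t : ℝ) ∧ (mx t : ℝ) ≤ 2 * m ∧
    ((rad t.2.1 * rad t.2.2 : ℕ) : ℝ) ≤ Y

theorem core3 (ε : ℝ) (hε : 0 < ε) :
    ∃ C : ℝ, 0 < C ∧ ∀ V : ℕ, 0 < V → ∀ N : ℕ, 1 ≤ N → ∀ Y m : ℝ, 1 ≤ Y → 1 ≤ m →
      ∀ S : Finset (ℕ × (ℕ × ℕ)), (∀ t ∈ S, TC V N Y m t) →
      (S.card : ℝ) ≤ C * (N : ℝ) ^ ε * (Y / √m + Y ^ ((1 : ℝ) / 4) * √m) := by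
  classical
  set roles : Finset (Fin 3 × Fin 3 × Fin 3) :=
    univ.filter (fun x => x.1 ≠ x.2.1 ∧ x.1 ≠ x.2.2 ∧ x.2.1 ≠ x.2.2) with hroles
  have hcore : ∀ x ∈ roles, ∃ C : ℝ, 0 < C ∧ ∀ V : ℕ, 0 < V → ∀ X : ℕ, 1 ≤ X → ∀ Y m : ℝ,
      1 ≤ Y → 1 ≤ m → ∀ S : Finset (ℕ × ℕ),
      (∀ t ∈ S, Adm X t ∧ isX V x.1 t.1 t.2 ∧ m ≤ ((t.1 + t.2 : ℕ) : ℝ) ∧
        ((t.1 + t.2 : ℕ) : ℝ) ≤ 2 * m ∧
        ((rad (side t.1 t.2 x.2.1) * rad (side t.1 t.2 x.2.2) : ℕ) : ℝ) ≤ Y) →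
      (S.card : ℝ) ≤ C * (X : ℝ) ^ ε * (Y / √m + Y ^ ((1 : ℝ) / 4) * √m) := by
    intro x hx
    rw [hroles, mem_filter] at hx
    exact count4 x.1 x.2.1 x.2.2 hx.2.1 hx.2.2.1 hx.2.2.2 ε hε
  choose! C hC h using hcore
  refine ⟨∑ x ∈ roles, C x + 1, by
    have := sum_nonneg (fun x hx => (hC x hx).le)
    linarith, ?_⟩
  intro V hV N hN Y m hY hm S hS
  let T : Fin 3 × Fin 3 × Fin 3 → Finset (ℕ × ℕ) := fun x =>
    (range (N + 1) ×ˢ range (N + 1)).filter (fun t => Adm N t ∧ isX V x.1 t.1 t.2 ∧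
        m ≤ ((t.1 + t.2 : ℕ) : ℝ) ∧ ((t.1 + t.2 : ℕ) : ℝ) ≤ 2 * m ∧
        ((rad (side t.1 t.2 x.2.1) * rad (side t.1 t.2 x.2.2) : ℕ) : ℝ) ≤ Y)
  let g : Fin 3 × Fin 3 × Fin 3 → ℕ × ℕ → ℕ × (ℕ × ℕ) := fun x p =>
    (side p.1 p.2 x.1, (side p.1 p.2 x.2.1, side p.1 p.2 x.2.2))
  have hsub : S ⊆ roles.biUnion (fun x => (T x).image (g x)) := by
    rintro ⟨x, y, z⟩ ht
    obtain ⟨⟨hx0, hy0, hz0, hcop, hrel, hs⟩, hmN, hm1, hm2, hr⟩ := hS _ ht
    simp only at hx0 hy0 hz0 hcop hrel hs hr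
    unfold mx at hmN hm1 hm2
    simp only at hmN hm1 hm2
    rw [mem_biUnion]
    -- a general step
    have step : ∀ (w : Fin 3 × Fin 3 × Fin 3) (a b : ℕ), w ∈ roles → 0 < a → a ≤ b →
        Nat.Coprime a b → a + b = max x (max y z) → side a b w.1 = x → side a b w.2.1 = y →
        side a b w.2.2 = z → ∃ w ∈ roles, (x, y, z) ∈ (T w).image (g w) := by
      intro w a b hw ha hab hc hN' e1 e2 e3
      refine ⟨w, hw, ?_⟩
      rw [mem_image]
      refine ⟨(a, b), ?_, ?_⟩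
      · simp only [T]
        rw [← hN'] at hmN hm1 hm2
        rw [mem_filter, mem_product, mem_range, mem_range]
        refine ⟨⟨by simp only; omega, by simp only; omega⟩, ⟨ha, hab, hc, hmN⟩, ?_, ?_, ?_, ?_⟩
        · unfold isX
          simp only
          rw [e1]
          exact hs
        · exact hm1
        · exact hm2
        · simp only
          rw [e2, e3]
          exact hr
      · simp only [g]
        rw [e1, e2, e3]
    rcases hrel with h1 | h1 | h1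
    · -- z largest
      have hcxy : Nat.Coprime x y := by
        rw [← h1] at hcop
        have : Nat.Coprime y (x + y) := hcop
        simpa [Nat.coprime_comm] using this
      rcases le_total x y with h2 | h2
      · exact step (0, 1, 2) x y (by rw [hroles, mem_filter]; exact ⟨mem_univ _, by decide⟩) hx0 h2
          hcxy (by omega) rfl rfl h1
      · exact step (1, 0, 2) y x (by rw [hroles, mem_filter]; exact ⟨mem_univ _, by decide⟩) hy0 h2
          hcxy.symm (by omega) rfl rfl (by show y + x = z; omega)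
    · -- y largest
      have hcxz : Nat.Coprime x z := by
        rw [← h1] at hcop
        have : Nat.Coprime (x + z) z := hcop
        simpa using this
      rcases le_total x z with h2 | h2
      · exact step (0, 2, 1) x z (by rw [hroles, mem_filter]; exact ⟨mem_univ _, by decide⟩) hx0 h2
          hcxz (by omega) rfl h1 rfl
      · exact step (1, 2, 0) z x (by rw [hroles, mem_filter]; exact ⟨mem_univ _, by decide⟩) hz0 h2
          hcxz.symm (by omega) rfl (by show z + x = y; omega) rfl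
    · -- x largest
      rcases le_total y z with h2 | h2
      · exact step (2, 0, 1) y z (by rw [hroles, mem_filter]; exact ⟨mem_univ _, by decide⟩) hy0 h2
          hcop (by omega) h1 rfl rfl
      · exact step (2, 1, 0) z y (by rw [hroles, mem_filter]; exact ⟨mem_univ _, by decide⟩) hz0 h2
          hcop.symm (by omega) (by show z + y = x; omega) rfl rfl
  have h1 : (S.card : ℝ) ≤ ∑ x ∈ roles, ((T x).card : ℝ) := by
    have := (card_le_card hsub).trans (card_biUnion_le.trans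
      (sum_le_sum (fun x _ => card_image_le)))
    exact_mod_cast this
  have h2 : ∑ x ∈ roles, ((T x).card : ℝ) ≤
      ∑ x ∈ roles, C x * ((N : ℝ) ^ ε * (Y / √m + Y ^ ((1 : ℝ) / 4) * √m)) := by
    refine sum_le_sum (fun x hx => ?_)
    rw [← mul_assoc]
    refine h x hx V hV N hN Y m hY hm (T x) (fun t ht => ?_)
    simp only [T] at ht
    rw [mem_filter] at ht
    exact ht.2
  have h3 : 0 ≤ (N : ℝ) ^ ε * (Y / √m + Y ^ ((1 : ℝ) / 4) * √m) := by positivity
  rw [← sum_mul] at h2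
  calc (S.card : ℝ) ≤ _ := h1.trans h2
    _ ≤ (∑ x ∈ roles, C x + 1) * ((N : ℝ) ^ ε * (Y / √m + Y ^ ((1 : ℝ) / 4) * √m)) := by nlinarith
    _ = _ := by ring

/-- the invariants attached to `((sA, sB), (G, t))` -/
def mdl (u : (ℤ × ℤ) × (ℕ × (ℕ × (ℕ × ℕ)))) : ℤ × ℤ :=
  let A : ℤ := u.1.1 * ((Nat.sqrt (u.2.1 * u.2.2.1) : ℕ) : ℤ)
  let B : ℤ := u.1.2 * ((u.2.1 : ℤ) * (u.2.2.2.1 : ℤ)) / 4
  (A ^ 2 - 3 * B, A * (9 * B - 2 * A ^ 2) / 2)

theorem tri_mem (X : ℝ) (hX : 1 ≤ X) (W : WeierstrassCurve ℤ) (hΔ : W.Δ ≠ 0)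
    (hco : IsCoprime W.c₄ W.Δ) (htwo : HasTwo W) (hc4 : |(W.c₄ : ℝ)| ≤ X ^ 2)
    (hc6 : |(W.c₆ : ℝ)| ≤ X ^ 3) :
    (W.c₆ = 0 ∧ |W.c₄| ≤ 48) ∨
    ∃ (sA sB : ℤ) (G : ℕ) (t : ℕ × (ℕ × ℕ)), (sA = 1 ∨ sA = -1) ∧ (sB = 1 ∨ sB = -1) ∧
      1 ≤ G ∧ G ≤ 64 ∧ TB (sqf G) t ∧ (mx t : ℝ) ≤ 7 * X ^ 2 ∧
      rad t.2.1 * rad t.2.2 ≤ 2 * rad W.Δ.natAbs ∧ |(W.Δ : ℝ)| ≤ 64 * (mx t : ℝ) ^ 3 ∧
      mdl ((sA, sB), (G, t)) = (W.c₄, W.c₆) := by
  classical
  obtain ⟨A, B, e4, e6, eD⟩ := inv_AB W htwo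
  have hB0 : B ≠ 0 := by
    rintro rfl
    apply hΔ
    have : 256 * W.Δ = 0 := by rw [eD]; ring
    omega
  have hC0 : A ^ 2 - 4 * B ≠ 0 := by
    intro h
    apply hΔ
    have : 256 * W.Δ = 0 := by rw [eD, h]; ring
    omega
  -- common divisors
  have hodd : ∀ p : ℕ, p.Prime → p ≠ 2 → ¬ ((p : ℤ) ∣ A ∧ (p : ℤ) ∣ B) := by
    rintro p hp h2 ⟨hA, hB⟩
    have h1 : (p : ℤ) ∣ W.c₄ := by
      rw [e4]
      exact dvd_sub (hA.pow (by norm_num)) (hB.mul_left 3)
    have h3 : (p : ℤ) ∣ 256 * W.Δ := by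
      rw [eD]
      exact (hB.pow (by norm_num)).mul_right _
    have := hco.isUnit_of_dvd' h1 (odd_prime_256 hp h2 h3)
    rw [Int.isUnit_iff] at this
    have := hp.two_le
    omega
  have htwo' : ¬ ((2 : ℤ) ^ 4 ∣ A ∧ (2 : ℤ) ^ 5 ∣ B) := by
    rintro ⟨⟨k, hk⟩, ⟨l, hl⟩⟩
    have h1 : (2 : ℤ) ∣ W.c₄ := by
      rw [e4, hk, hl]
      exact ⟨128 * k ^ 2 - 48 * l, by ring⟩
    have h3 : (2 : ℤ) ∣ W.Δ := by
      rw [hk, hl] at eD
      refine ⟨l ^ 2 * (512 * k ^ 2 - 256 * l), ?_⟩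
      have : 256 * W.Δ = 256 * (2 * (l ^ 2 * (512 * k ^ 2 - 256 * l))) := by
        rw [eD]; ring
      exact mul_left_cancel₀ (by norm_num) this
    have := hco.isUnit_of_dvd' h1 h3
    rw [Int.isUnit_iff] at this
    omega
  by_cases hA0 : A = 0
  · -- degenerate case
    left
    have hb : 4 * B.natAbs ≤ 64 := by
      refine le_64 _ (by have := Int.natAbs_pos.mpr hB0; omega) ?_ ?_
      · intro p hp hpn
        by_contra h2
        have h3 : p ^ 1 ∣ 4 * B.natAbs := by rw [pow_one]; exact hpn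
        have h4 : p ^ 1 ∣ B.natAbs := by
          have hc : Nat.Coprime (p ^ 1) 4 := by
            have : Nat.Coprime p 2 := (Nat.coprime_primes hp Nat.prime_two).mpr h2
            have h4 : Nat.Coprime p (2 ^ 2) := Nat.Coprime.pow_right _ this
            rw [pow_one]
            norm_num at h4
            exact h4
          exact hc.dvd_of_dvd_mul_left h3
        rw [pow_one] at h4
        exact hodd p hp h2 ⟨by rw [hA0]; exact dvd_zero _, Int.natCast_dvd.mpr h4⟩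
      · intro h
        have h5 : 2 ^ 5 ∣ B.natAbs := by
          obtain ⟨q, hq⟩ := h
          exact ⟨q, by omega⟩
        have h6 : ((2 ^ 5 : ℕ) : ℤ) ∣ B := Int.natCast_dvd.mpr h5
        exact htwo' ⟨by rw [hA0]; exact dvd_zero _, by exact_mod_cast h6⟩
    constructor
    · rw [hA0] at e6
      have : 2 * W.c₆ = 0 := by rw [e6]; ring
      omega
    · rw [hA0] at e4
      have h1 : W.c₄ = -3 * B := by rw [e4]; ring
      rw [h1]
      have h2 : |B| ≤ 16 := by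
        have : ((B.natAbs : ℕ) : ℤ) ≤ 16 := by
          have : B.natAbs ≤ 16 := by omega
          exact_mod_cast this
        rwa [Int.natCast_natAbs] at this
      rw [abs_mul]
      norm_num
      linarith
  · right
    obtain ⟨G, x, y, z, sB, hsB, hG, hx0, hy0, hz0, hyz, hrel, hGA, hGB, hA2, h4B, hCz⟩ :=
      triple_of A B hA0 hB0 hC0
    have hG64 : G ≤ 64 := by
      refine le_64 G hG ?_ ?_
      · intro p hp hpn
        by_contra h2
        have d1 : p ∣ A.natAbs := hp.dvd_of_dvd_pow (hpn.trans hGA)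
        have d2 : p ∣ B.natAbs := by
          have hc : Nat.Coprime p 4 := by
            have : Nat.Coprime p 2 := (Nat.coprime_primes hp Nat.prime_two).mpr h2
            have h4 : Nat.Coprime p (2 ^ 2) := Nat.Coprime.pow_right _ this
            norm_num at h4
            exact h4
          exact hc.dvd_of_dvd_mul_left (hpn.trans hGB)
        exact hodd p hp h2 ⟨Int.natCast_dvd.mpr d1, Int.natCast_dvd.mpr d2⟩
      · intro h
        have d1 : 2 ^ (2 * 4 - 1) ∣ A.natAbs ^ 2 := h.trans hGA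
        have d2 := pow_dvd_of_sq Nat.prime_two (Int.natAbs_ne_zero.mpr hA0) (by norm_num) d1
        have d3 : 2 ^ 5 ∣ B.natAbs := by
          obtain ⟨q, hq⟩ := h.trans hGB
          exact ⟨q, by omega⟩
        have e1 : ((2 ^ 4 : ℕ) : ℤ) ∣ A := Int.natCast_dvd.mpr d2
        have e2 : ((2 ^ 5 : ℕ) : ℤ) ∣ B := Int.natCast_dvd.mpr d3
        exact htwo' ⟨by exact_mod_cast e1, by exact_mod_cast e2⟩
    -- sizes
    have hX0 : 0 < X := by linarith
    have hAX : |(A : ℝ)| ≤ 2 * X := by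
      by_contra hcon
      push Not at hcon
      have h7 : (A : ℝ) ^ 3 = 3 * W.c₄ * A + 2 * W.c₆ := by
        have : A ^ 3 = 3 * W.c₄ * A + 2 * W.c₆ := by rw [e6, e4]; ring
        exact_mod_cast this
      have h8 : |(A : ℝ)| ^ 3 ≤ 3 * X ^ 2 * |(A : ℝ)| + 2 * X ^ 3 := by
        calc |(A : ℝ)| ^ 3 = |(A : ℝ) ^ 3| := (abs_pow _ 3).symm
          _ = |3 * (W.c₄ : ℝ) * A + 2 * W.c₆| := by rw [h7]
          _ ≤ |3 * (W.c₄ : ℝ) * A| + |2 * (W.c₆ : ℝ)| := abs_add_le _ _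
          _ = 3 * |(W.c₄ : ℝ)| * |(A : ℝ)| + 2 * |(W.c₆ : ℝ)| := by
              rw [abs_mul, abs_mul, abs_mul]; norm_num
          _ ≤ _ := by
              have := mul_le_mul_of_nonneg_right hc4 (abs_nonneg (A : ℝ))
              nlinarith
      set t := |(A : ℝ)|
      have h9 : 0 < t - 2 * X := by linarith
      have h10 : 0 < (t - 2 * X) * (t + X) ^ 2 := by positivity
      nlinarith
    have hA2X : (A : ℝ) ^ 2 ≤ 4 * X ^ 2 := by
      rw [← sq_abs (A : ℝ)]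
      nlinarith [abs_nonneg (A : ℝ)]
    have hA2n : 0 ≤ (A : ℝ) ^ 2 := sq_nonneg _
    obtain ⟨c4l, c4u⟩ := abs_le.mp hc4
    have hG1 : (1 : ℝ) ≤ G := by exact_mod_cast hG
    have e4R : (W.c₄ : ℝ) = (A : ℝ) ^ 2 - 3 * B := by exact_mod_cast e4
    have hGx : (G : ℝ) * x ≤ 7 * X ^ 2 := by
      have : (A : ℝ) ^ 2 = (G : ℝ) * x := by exact_mod_cast hA2
      rw [← this]
      nlinarith [sq_nonneg X]
    have hGy : (G : ℝ) * y ≤ 7 * X ^ 2 := by
      have e1 : ((G : ℤ) * y) = |4 * B| := by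
        rw [h4B, abs_mul]
        have e3 : |sB| = 1 := by rcases hsB with h | h <;> rw [h] <;> norm_num
        rw [e3, one_mul]
        exact (abs_of_nonneg (by positivity)).symm
      have e2 : (G : ℝ) * y = |4 * (B : ℝ)| := by exact_mod_cast e1
      rw [e2, abs_le]
      constructor <;> nlinarith [sq_nonneg X]
    have hGz : (G : ℝ) * z ≤ 7 * X ^ 2 := by
      have e2 : |(A : ℝ) ^ 2 - 4 * B| = (G : ℝ) * z := by exact_mod_cast hCz
      rw [← e2, abs_le]
      constructor <;> nlinarith [sq_nonneg X]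
    have hMw : ∀ w : ℕ, (G : ℝ) * w ≤ 7 * X ^ 2 → (w : ℝ) ≤ 7 * X ^ 2 := by
      intro w hw
      have : (0 : ℝ) ≤ w := Nat.cast_nonneg _
      nlinarith
    have hmx : (mx (x, (y, z)) : ℝ) ≤ 7 * X ^ 2 := by
      unfold mx
      push_cast
      exact max_le (hMw x hGx) (max_le (hMw y hGy) (hMw z hGz))
    -- square
    have e1 : G * x = A.natAbs ^ 2 := by
      have : ((G * x : ℕ) : ℤ) = ((A.natAbs ^ 2 : ℕ) : ℤ) := by
        push_cast
        rw [← hA2, sq_abs]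
      exact_mod_cast this
    have hsqr := sqf_sq G x A.natAbs hG hx0 (by rw [mul_comm]; exact e1)
    -- radical
    have hcondW : rad (y * z) ≤ 2 * rad W.Δ.natAbs := by
      have hsub : (y * z).primeFactors ⊆ insert 2 W.Δ.natAbs.primeFactors := by
        intro p hp
        have hpp := Nat.prime_of_mem_primeFactors hp
        have hpn := Nat.dvd_of_mem_primeFactors hp
        rw [mem_insert]
        by_cases h2 : p = 2
        · exact Or.inl h2
        · right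
          have h3 : (p : ℤ) ∣ 256 * W.Δ := by
            rw [eD]
            rcases hpp.dvd_mul.mp hpn with h | h
            · have h4 : (p : ℤ) ∣ 4 * B := by
                rw [h4B]
                exact Dvd.dvd.mul_left (Dvd.dvd.mul_left (by exact_mod_cast h) _) _
              have hc : IsCoprime (p : ℤ) 4 := by
                have : Nat.Coprime p 2 := (Nat.coprime_primes hpp Nat.prime_two).mpr h2
                have h4 : Nat.Coprime p (2 ^ 2) := Nat.Coprime.pow_right _ this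
                norm_num at h4
                exact_mod_cast Nat.isCoprime_iff_coprime.mpr h4
              exact ((hc.dvd_of_dvd_mul_left h4).pow (by norm_num)).mul_right _
            · refine Dvd.dvd.mul_left ?_ _
              rw [← dvd_abs, hCz]
              exact Dvd.dvd.mul_left (by exact_mod_cast h) _
          exact Nat.mem_primeFactors.mpr ⟨hpp, Int.natCast_dvd.mp (odd_prime_256 hpp h2 h3),
            Int.natAbs_ne_zero.mpr hΔ⟩
      have h1 : rad (y * z) ≤ ∏ p ∈ insert 2 W.Δ.natAbs.primeFactors, p := by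
        refine prod_le_prod_of_subset_of_one_le' hsub ?_
        intro p hp _
        rw [mem_insert] at hp
        rcases hp with rfl | hp
        · norm_num
        · exact (Nat.prime_of_mem_primeFactors hp).one_le
      refine h1.trans ?_
      by_cases h2 : 2 ∈ W.Δ.natAbs.primeFactors
      · rw [insert_eq_of_mem h2]
        unfold rad
        have : 0 < ∏ p ∈ W.Δ.natAbs.primeFactors, p :=
          prod_pos (fun p hp => (Nat.prime_of_mem_primeFactors hp).pos)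
        omega
      · rw [prod_insert h2]
        exact le_refl _
    have hΔR : |(W.Δ : ℝ)| ≤ 64 * (mx (x, (y, z)) : ℝ) ^ 3 := by
      have e5 : 16 * |256 * W.Δ| = (G : ℤ) ^ 3 * (y ^ 2 * z) := by
        have : 16 * |256 * W.Δ| = |(4 * B) ^ 2| * |A ^ 2 - 4 * B| := by
          rw [eD, ← abs_mul]
          have : (4 * B) ^ 2 * (A ^ 2 - 4 * B) = 16 * (B ^ 2 * (A ^ 2 - 4 * B)) := by ring
          rw [this, abs_mul]
          norm_num
        rw [this, hCz, h4B, mul_pow]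
        have e3 : sB ^ 2 = 1 := by rcases hsB with h | h <;> rw [h] <;> norm_num
        rw [e3, one_mul, abs_of_nonneg (by positivity : (0 : ℤ) ≤ ((G : ℤ) * y) ^ 2)]
        ring
      have e6 : 16 * |256 * W.Δ| = 4096 * |W.Δ| := by
        rw [abs_mul]
        norm_num
        ring
      have e7 : 4096 * |W.Δ| ≤ 64 ^ 3 * ((y : ℤ) ^ 2 * z) := by
        rw [← e6, e5]
        have : (G : ℤ) ^ 3 ≤ 64 ^ 3 := pow_le_pow_left₀ (by positivity) (by exact_mod_cast hG64) 3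
        exact mul_le_mul_of_nonneg_right this (by positivity)
      have e8 : |W.Δ| ≤ 64 * ((y : ℤ) ^ 2 * z) := by linarith
      have e9 : ((|W.Δ| : ℤ) : ℝ) ≤ ((64 * ((y : ℤ) ^ 2 * z) : ℤ) : ℝ) := by exact_mod_cast e8
      push_cast at e9
      have hy' : (y : ℝ) ≤ (mx (x, (y, z)) : ℝ) := by
        unfold mx
        exact_mod_cast (le_max_left y z).trans (le_max_right x _)
      have hz' : (z : ℝ) ≤ (mx (x, (y, z)) : ℝ) := by
        unfold mx
        exact_mod_cast (le_max_right y z).trans (le_max_right x _)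
      calc |(W.Δ : ℝ)| ≤ 64 * ((y : ℝ) ^ 2 * z) := e9
        _ ≤ 64 * ((mx (x, (y, z)) : ℝ) ^ 2 * (mx (x, (y, z)) : ℝ)) := by gcongr
        _ = _ := by ring
    obtain ⟨sA, hsA, hsAe⟩ : ∃ sA : ℤ, (sA = 1 ∨ sA = -1) ∧ A = sA * |A| := by
      rcases le_total 0 A with h0 | h0
      · exact ⟨1, Or.inl rfl, by rw [abs_of_nonneg h0]; ring⟩
      · exact ⟨-1, Or.inr rfl, by rw [abs_of_nonpos h0]; ring⟩
    refine ⟨sA, sB, G, (x, (y, z)), hsA, hsB, hG, hG64, ⟨hx0, hy0, hz0, hyz, hrel, hsqr⟩, hmx, ?_,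
      hΔR, ?_⟩
    · rw [← rad_mul hyz]
      exact hcondW
    · unfold mdl
      simp only
      rw [e1, Nat.sqrt_eq', Int.natCast_natAbs, ← hsAe, ← h4B,
        Int.mul_ediv_cancel_left _ (by norm_num : (4 : ℤ) ≠ 0), ← e4, ← e6,
        Int.mul_ediv_cancel_left _ (by norm_num : (2 : ℤ) ≠ 0)]

end Pool.Agent.T2H27.Two
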