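import Pool.Agent.T2H27.Low
import Pool.Agent.T2H27.Two.Tri

/-!
The upper bound for the exceptional set of the semistable curves with a rational point of order 2.
-/

set_option autoImplicit false
set_option maxRecDepth 10000

namespace Pool.Agent.T2H27.Two

open Finset
open Pool.Agent.H328R2.ABC
open Pool.Agent.T2H27.Szp (card_le_cover poly_le size)

/-- the exceptional classes -/
def Exc2 (κ c₀ X : ℝ) : Set (ℤ × ℤ) :=
  {q | ∃ W : WeierstrassCurve ℤ, W.Δ ≠ 0 ∧ IsCoprime W.c₄ W.Δ ∧ HasTwo W ∧ q = (W.c₄, W.c₆) ∧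
    |(W.c₄ : ℝ)| ^ 3 ≤ X ^ 6 ∧ (W.c₆ : ℝ) ^ 2 ≤ X ^ 6 ∧
    c₀ * (rad W.Δ.natAbs : ℝ) ^ κ < |(W.Δ : ℝ)|}

/-- the pairs `(A, B)` -/
theorem box_mem (X : ℝ) (hX : 1 ≤ X) (W : WeierstrassCurve ℤ) (htwo : HasTwo W)
    (hc4 : |(W.c₄ : ℝ)| ≤ X ^ 2) (hc6 : |(W.c₆ : ℝ)| ≤ X ^ 3) :
    ∃ A B : ℤ, |(A : ℝ)| ≤ 2 * X ∧ |(B : ℝ)| ≤ 2 * X ^ 2 ∧
      (A ^ 2 - 3 * B, A * (9 * B - 2 * A ^ 2) / 2) = (W.c₄, W.c₆) := by
  obtain ⟨A, B, e4, e6, eD⟩ := inv_AB W htwo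
  have hX0 : 0 < X := by linarith
  have hAX : |(A : ℝ)| ≤ 2 * X := by
    by_contra hcon
    push Not at hcon
    have h7 : (A : ℝ) ^ 3 = 3 * W.c₄ * A + 2 * W.c₆ := by
      have : A ^ 3 = 3 * W.c₄ * A + 2 * W.c₆ := by rw [e6, e4]; ring
      exact_mod_cast this
    have h8 : |(A : ℝ)| ^ 3 ≤ 3 * X ^ 2 * |(A : ℝ)| + 2 * X ^ 3 := by
      calc |(A : ℝ)| ^ 3 = |(A : ℝ) ^ 3| := (abs_pow _ 3).symm
        _ = |3 * (W.c₄ : ℝ) * A + 2 * W.c₆| := by rw [h7]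
        _ ≤ |3 * (W.c₄ : ℝ) * A| + |2 * (W.c₆ : ℝ)| := abs_add_le _ _
        _ = 3 * |(W.c₄ : ℝ)| * |(A : ℝ)| + 2 * |(W.c₆ : ℝ)| := by
            rw [abs_mul, abs_mul, abs_mul]; norm_num
        _ ≤ _ := by
            have := mul_le_mul_of_nonneg_right hc4 (abs_nonneg (A : ℝ))
            nlinarith
    set t := |(A : ℝ)|
    have h9 : 0 < t - 2 * X := by linarith
    have h10 : 0 < (t - 2 * X) * (t + X) ^ 2 := by positivity
    nlinarith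
  have hA2X : (A : ℝ) ^ 2 ≤ 4 * X ^ 2 := by
    rw [← sq_abs (A : ℝ)]
    nlinarith [abs_nonneg (A : ℝ)]
  have hA2n : 0 ≤ (A : ℝ) ^ 2 := sq_nonneg _
  obtain ⟨c4l, c4u⟩ := abs_le.mp hc4
  have e4R : (W.c₄ : ℝ) = (A : ℝ) ^ 2 - 3 * B := by exact_mod_cast e4
  refine ⟨A, B, hAX, ?_, ?_⟩
  · rw [abs_le]
    constructor <;> nlinarith [sq_nonneg X]
  · rw [← e4, ← e6, Int.mul_ediv_cancel_left _ (by norm_num : (2 : ℤ) ≠ 0)]

theorem card_int (B : ℝ) (hB : 1 ≤ B) :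
    ((Icc ⌈-B⌉ ⌊B⌋ : Finset ℤ).card : ℝ) ≤ 3 * B := by
  rw [Int.card_Icc]
  have h1 : (⌊B⌋ : ℝ) ≤ B := Int.floor_le B
  have h2 : -B ≤ (⌈-B⌉ : ℝ) := Int.le_ceil _
  have h3 : 0 ≤ ⌊B⌋ + 1 - ⌈-B⌉ := by
    have h4 : 1 ≤ ⌊B⌋ := Int.le_floor.2 (by exact_mod_cast hB)
    have h5 : ⌈-B⌉ ≤ 0 := Int.ceil_le.2 (by push_cast; linarith)
    omega
  have h4 : (((⌊B⌋ + 1 - ⌈-B⌉).toNat : ℕ) : ℝ) = ((⌊B⌋ + 1 - ⌈-B⌉ : ℤ) : ℝ) := by
    have : (((⌊B⌋ + 1 - ⌈-B⌉).toNat : ℕ) : ℤ) = ⌊B⌋ + 1 - ⌈-B⌉ := Int.toNat_of_nonneg h3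
    exact_mod_cast this
  rw [h4]
  push_cast
  linarith

theorem exc2_sub (κ c₀ X : ℝ) (hX : 1 ≤ X) : Exc2 κ c₀ X ⊆
    (((Icc ⌈-(2 * X)⌉ ⌊2 * X⌋ ×ˢ Icc ⌈-(2 * X ^ 2)⌉ ⌊2 * X ^ 2⌋ : Finset (ℤ × ℤ)).image
      (fun u => (u.1 ^ 2 - 3 * u.2, u.1 * (9 * u.2 - 2 * u.1 ^ 2) / 2)) : Finset (ℤ × ℤ)) :
        Set (ℤ × ℤ)) := by
  rintro q ⟨W, hΔ, hc, htwo, rfl, h4, h6, hbig⟩
  obtain ⟨s4, s6⟩ := size (by linarith) h4 h6
  obtain ⟨A, B, hA, hB, he⟩ := box_mem X hX W htwo s4 s6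
  rw [mem_coe, mem_image]
  refine ⟨(A, B), ?_, he⟩
  rw [mem_product, mem_Icc, mem_Icc]
  obtain ⟨a1, a2⟩ := abs_le.1 hA
  obtain ⟨b1, b2⟩ := abs_le.1 hB
  exact ⟨⟨Int.ceil_le.2 a1, Int.le_floor.2 a2⟩, ⟨Int.ceil_le.2 b1, Int.le_floor.2 b2⟩⟩

theorem exc2_finite (κ c₀ X : ℝ) (hX : 1 ≤ X) : (Exc2 κ c₀ X).Finite :=
  Set.Finite.subset (Finset.finite_toSet _) (exc2_sub κ c₀ X hX)

theorem exc2_three (κ c₀ X : ℝ) (hX : 1 ≤ X) :
    ((Exc2 κ c₀ X).ncard : ℝ) ≤ 36 * X ^ (3 : ℝ) := by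
  have h1 := Set.ncard_le_ncard (exc2_sub κ c₀ X hX) (Finset.finite_toSet _)
  rw [Set.ncard_coe_finset] at h1
  have h2 := h1.trans card_image_le
  rw [card_product] at h2
  have h3 : ((Exc2 κ c₀ X).ncard : ℝ) ≤ ((Icc ⌈-(2 * X)⌉ ⌊2 * X⌋ : Finset ℤ).card : ℝ) *
      ((Icc ⌈-(2 * X ^ 2)⌉ ⌊2 * X ^ 2⌋ : Finset ℤ).card : ℝ) := by exact_mod_cast h2
  have h4 := card_int (2 * X) (by linarith)
  have h5 := card_int (2 * X ^ 2) (by nlinarith)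
  have h6 : X ^ (3 : ℝ) = X ^ 3 := by
    rw [← Real.rpow_natCast]
    norm_num
  calc ((Exc2 κ c₀ X).ncard : ℝ) ≤ (3 * (2 * X)) * (3 * (2 * X ^ 2)) :=
        h3.trans (mul_le_mul h4 h5 (Nat.cast_nonneg _) (by positivity))
    _ = 36 * X ^ (3 : ℝ) := by rw [h6]; ring

theorem upper_main (κ c₀ ε : ℝ) (hκ : 0 < κ) (hc₀ : 0 < c₀) (hε : 0 < ε) :
    ∃ C : ℝ, 0 < C ∧ ∀ X : ℝ, 1 ≤ X →
      ((Exc2 κ c₀ X).ncard : ℝ) ≤ C * X ^ (max (6 / κ - 1) (1 + 3 / (2 * κ)) + ε) := by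
  classical
  obtain ⟨C₁, hC₁, hcore⟩ := core3 (ε / 4) (by positivity)
  obtain ⟨K₁, hK₁, hpoly⟩ := poly_le (ε / 4) (by positivity)
  set E : ℝ := max (6 / κ - 1) (1 + 3 / (2 * κ)) with hE
  have hE0 : 0 < E := lt_of_lt_of_le (by positivity) (le_max_right _ _)
  set K : ℝ := max 1 (2 * (512 / c₀) ^ (1 / κ)) with hK
  have hK1 : 1 ≤ K := le_max_left _ _
  have hK0 : 0 < K := by linarith
  refine ⟨97 + 256 * K₁ * C₁ * (2 * K) * 7 ^ (E / 2 + ε / 2), by positivity, ?_⟩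
  intro X hX
  have hX0 : 0 < X := by linarith
  have hM1 : 1 ≤ 7 * X ^ 2 := by nlinarith
  obtain ⟨j₁, hj1, hj2⟩ := exists_nat_pow_near hM1 (one_lt_two)
  set N : ℕ := ⌊7 * X ^ 2⌋₊ with hN
  have hN1 : 1 ≤ N := Nat.le_floor (by simpa using hM1)
  have hNR : (N : ℝ) ≤ 7 * X ^ 2 := Nat.floor_le (by positivity)
  have hfin := exc2_finite κ c₀ X hX
  set S : Finset (ℤ × ℤ) := hfin.toFinset with hS
  have hcard : ((Exc2 κ c₀ X).ncard : ℝ) = S.card := by rw [Set.ncard_eq_toFinset_card _ hfin]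
  rw [hcard]
  set Z : Finset (ℤ × ℤ) := (Icc (-(48 : ℤ)) 48) ×ˢ ({0} : Finset ℤ) with hZ
  have hZcard : Z.card = 97 := by
    rw [hZ, card_product, card_singleton, mul_one, Int.card_Icc]
    rfl
  set Yj : ℕ → ℝ := fun j => K * ((2 : ℝ) ^ j) ^ (3 / κ) with hYj
  have hYj1 : ∀ j, 1 ≤ Yj j := by
    intro j
    have h1 : (1 : ℝ) ≤ 2 ^ j := one_le_pow₀ (by norm_num)
    have h2 : (1 : ℝ) ≤ ((2 : ℝ) ^ j) ^ (3 / κ) := Real.one_le_rpow h1 (by positivity)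
    exact one_le_mul_of_one_le_of_one_le hK1 h2
  set Gb : ℝ := C₁ * (N : ℝ) ^ (ε / 4) * (2 * K * (7 * X ^ 2) ^ (E / 2)) with hGb
  have hsplit : S.card ≤ 97 + (S \ Z).card := by
    have h1 := card_le_card (show S ⊆ Z ∪ (S \ Z) by
      intro x hx
      by_cases h : x ∈ Z
      · exact mem_union_left _ h
      · exact mem_union_right _ (mem_sdiff.2 ⟨hx, h⟩))
    have h2 := h1.trans (card_union_le _ _)
    omega
  have hmain : ((S \ Z).card : ℝ) ≤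
      ∑ i ∈ (({1, -1} : Finset ℤ) ×ˢ ({1, -1} : Finset ℤ)) ×ˢ (Icc 1 64 ×ˢ range (j₁ + 1)), Gb := by
    refine card_le_cover (S \ Z) _ (fun i q => 0 < i.2.1 ∧ i.2.2 ≤ j₁ ∧ ∃ t,
      TC (sqf i.2.1) N (Yj i.2.2) (2 ^ i.2.2) t ∧ mdl (i.1, (i.2.1, t)) = q) _ ?_ ?_
    · intro x hx
      rw [mem_sdiff] at hx
      obtain ⟨hx, hxZ⟩ := hx
      rw [hS, Set.Finite.mem_toFinset] at hx
      obtain ⟨W, hΔ, hc, htwo, rfl, h4, h6, hbig⟩ := hx
      obtain ⟨s4, s6⟩ := size (by linarith) h4 h6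
      rcases tri_mem X hX W hΔ hc htwo s4 s6 with ⟨h1, h2⟩ |
        ⟨sA, sB, G, t, hsA, hsB, hG1, hG64, hTB, hmx, hr, hD, hmdl⟩
      · exfalso
        apply hxZ
        rw [hZ, mem_product, mem_Icc, mem_singleton]
        exact ⟨abs_le.mp h2, h1⟩
      have hmx1 : (1 : ℝ) ≤ mx t := by
        have : 1 ≤ mx t := le_trans hTB.1 (le_max_left _ _)
        exact_mod_cast this
      obtain ⟨j, hjl, hju⟩ := exists_nat_pow_near hmx1 (one_lt_two)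
      have hjj : j ≤ j₁ := by
        have h1 : (2 : ℝ) ^ j < 2 ^ (j₁ + 1) := lt_of_le_of_lt (hjl.trans hmx) hj2
        have := (pow_lt_pow_iff_right₀ (one_lt_two)).1 h1
        omega
      refine ⟨((sA, sB), (G, j)), ?_, hG1, hjj, t, ⟨hTB, Nat.le_floor hmx, hjl, ?_, ?_⟩, hmdl⟩
      · rw [mem_product, mem_product, mem_product, mem_Icc, mem_range]
        refine ⟨⟨?_, ?_⟩, ⟨hG1, hG64⟩, by simp only; omega⟩
        · simp only [mem_insert, mem_singleton]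
          exact hsA
        · simp only [mem_insert, mem_singleton]
          exact hsB
      · rw [pow_succ] at hju
        linarith
      · -- the radical
        have hr' : ((rad t.2.1 * rad t.2.2 : ℕ) : ℝ) ≤ 2 * (rad W.Δ.natAbs : ℝ) := by
          exact_mod_cast hr
        refine hr'.trans ?_
        have h7 : c₀ * (rad W.Δ.natAbs : ℝ) ^ κ ≤ 512 * ((2 : ℝ) ^ j) ^ 3 := by
          calc c₀ * (rad W.Δ.natAbs : ℝ) ^ κ ≤ |(W.Δ : ℝ)| := hbig.le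
            _ ≤ 64 * (mx t : ℝ) ^ 3 := hD
            _ ≤ 64 * (2 ^ (j + 1)) ^ 3 := by gcongr
            _ = _ := by rw [pow_succ]; ring
        have h8 : (rad W.Δ.natAbs : ℝ) ^ κ ≤ 512 / c₀ * ((2 : ℝ) ^ j) ^ 3 := by
          rw [div_mul_eq_mul_div, le_div_iff₀ hc₀]
          linarith
        have h9 : (rad W.Δ.natAbs : ℝ) ≤ (512 / c₀) ^ (1 / κ) * ((2 : ℝ) ^ j) ^ (3 / κ) := by
          have h10 : (rad W.Δ.natAbs : ℝ) = ((rad W.Δ.natAbs : ℝ) ^ κ) ^ (1 / κ) := by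
            rw [← Real.rpow_mul (Nat.cast_nonneg _)]
            rw [mul_one_div_cancel hκ.ne', Real.rpow_one]
          rw [h10]
          calc ((rad W.Δ.natAbs : ℝ) ^ κ) ^ (1 / κ)
              ≤ (512 / c₀ * ((2 : ℝ) ^ j) ^ 3) ^ (1 / κ) :=
                Real.rpow_le_rpow (by positivity) h8 (by positivity)
            _ = (512 / c₀) ^ (1 / κ) * ((2 : ℝ) ^ j) ^ (3 / κ) := by
                rw [Real.mul_rpow (by positivity) (by positivity), ← Real.rpow_natCast,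
                  ← Real.rpow_mul (by positivity)]
                congr 2
                push_cast
                ring
        simp only [hYj]
        calc 2 * (rad W.Δ.natAbs : ℝ)
            ≤ 2 * ((512 / c₀) ^ (1 / κ) * ((2 : ℝ) ^ j) ^ (3 / κ)) := by gcongr
          _ = (2 * (512 / c₀) ^ (1 / κ)) * ((2 : ℝ) ^ j) ^ (3 / κ) := by ring
          _ ≤ K * ((2 : ℝ) ^ j) ^ (3 / κ) := by
              have := le_max_right 1 (2 * (512 / c₀) ^ (1 / κ))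
              gcongr
    · rintro ⟨sg, G, j⟩ _ T _ hT
      rcases T.eq_empty_or_nonempty with rfl | ⟨z₀, hz₀⟩
      · rw [card_empty, Nat.cast_zero]
        positivity
      obtain ⟨hG, hj, -⟩ := hT z₀ hz₀
      simp only at hG hj
      choose! f hf using fun q (hq : q ∈ T) => (hT q hq).2.2
      simp only at hf
      have hinj : Set.InjOn f (T : Set (ℤ × ℤ)) := by
        intro q hq q' hq' he
        rw [← (hf q hq).2, ← (hf q' hq').2, he]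
      have hV : 0 < sqf G := by
        obtain ⟨_, _, _, _, h⟩ := sqf_spec G hG
        exact h
      have h1 := hcore (sqf G) hV N hN1 (Yj j) (2 ^ j) (hYj1 j) (one_le_pow₀ (by norm_num))
        (T.image f) (fun t ht => by
          obtain ⟨q, hq, rfl⟩ := mem_image.mp ht
          exact (hf q hq).1)
      rw [card_image_of_injOn hinj] at h1
      refine h1.trans ?_
      have hm0 : (1 : ℝ) ≤ 2 ^ j := one_le_pow₀ (by norm_num)
      set m : ℝ := 2 ^ j with hm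
      have hmX : m ≤ 7 * X ^ 2 := (pow_le_pow_right₀ (by norm_num) hj).trans hj1
      have hm00 : 0 < m := by linarith
      have e1 : √m = m ^ ((1 : ℝ) / 2) := Real.sqrt_eq_rpow m
      have b1 : Yj j / √m ≤ K * (7 * X ^ 2) ^ (E / 2) := by
        simp only [hYj]
        rw [e1, mul_div_assoc, ← Real.rpow_sub hm00]
        have h5 : m ^ (3 / κ - 1 / 2) ≤ m ^ (E / 2) := by
          refine Real.rpow_le_rpow_of_exponent_le hm0 ?_
          have h6 : 6 / κ - 1 ≤ E := le_max_left _ _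
          have h7 : 3 / κ = (6 / κ) / 2 := by ring
          rw [h7]
          linarith
        have h6 : m ^ (E / 2) ≤ (7 * X ^ 2) ^ (E / 2) :=
          Real.rpow_le_rpow hm00.le hmX (by linarith)
        exact mul_le_mul_of_nonneg_left (h5.trans h6) hK0.le
      have b2 : Yj j ^ ((1 : ℝ) / 4) * √m ≤ K * (7 * X ^ 2) ^ (E / 2) := by
        simp only [hYj]
        rw [e1, Real.mul_rpow hK0.le (by positivity), ← Real.rpow_mul hm00.le, mul_assoc,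
          ← Real.rpow_add hm00]
        have h4 : K ^ ((1 : ℝ) / 4) ≤ K := by
          calc K ^ ((1 : ℝ) / 4) ≤ K ^ (1 : ℝ) :=
                Real.rpow_le_rpow_of_exponent_le hK1 (by norm_num)
            _ = K := Real.rpow_one K
        have h5 : m ^ (3 / κ * (1 / 4) + 1 / 2) ≤ m ^ (E / 2) := by
          refine Real.rpow_le_rpow_of_exponent_le hm0 ?_
          have h6 : 1 + 3 / (2 * κ) ≤ E := le_max_right _ _
          have h7 : 3 / κ * (1 / 4) + 1 / 2 = (1 + 3 / (2 * κ)) / 2 := by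
            field_simp
            ring
          rw [h7]
          linarith
        have h6 : m ^ (E / 2) ≤ (7 * X ^ 2) ^ (E / 2) :=
          Real.rpow_le_rpow hm00.le hmX (by linarith)
        exact mul_le_mul h4 (h5.trans h6) (by positivity) hK0.le
      rw [hGb]
      have h0 : 0 ≤ C₁ * (N : ℝ) ^ (ε / 4) := by positivity
      exact mul_le_mul_of_nonneg_left (by linarith) h0
  rw [sum_const, card_product, card_product, card_product, Nat.card_Icc, card_range,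
    nsmul_eq_mul] at hmain
  have hsg : ({1, -1} : Finset ℤ).card ≤ 2 := card_le_two
  have hcnt : (((({1, -1} : Finset ℤ).card * ({1, -1} : Finset ℤ).card * ((64 + 1 - 1) * (j₁ + 1)) :
      ℕ) : ℝ)) ≤ 256 * (K₁ * (7 * X ^ 2) ^ (ε / 4)) := by
    have h1 : ({1, -1} : Finset ℤ).card * ({1, -1} : Finset ℤ).card * ((64 + 1 - 1) * (j₁ + 1)) ≤
        256 * (6 * j₁ + 2) ^ 3 := by
      have h2 : ({1, -1} : Finset ℤ).card * ({1, -1} : Finset ℤ).card ≤ 4 := by nlinarith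
      have h3 : j₁ + 1 ≤ (6 * j₁ + 2) ^ 3 := by
        calc j₁ + 1 ≤ 6 * j₁ + 2 := by omega
          _ ≤ (6 * j₁ + 2) ^ 3 := Nat.le_self_pow (by norm_num) _
      calc _ ≤ 4 * ((64 + 1 - 1) * (6 * j₁ + 2) ^ 3) := by gcongr
        _ = _ := by ring
    have h4 : (((6 * j₁ + 2 : ℕ) : ℝ)) ^ 3 ≤ K₁ * (7 * X ^ 2) ^ (ε / 4) := by
      refine (hpoly j₁).trans ?_
      have : ((2 : ℝ) ^ j₁) ^ (ε / 4) ≤ (7 * X ^ 2) ^ (ε / 4) := by gcongr
      exact mul_le_mul_of_nonneg_left this (by linarith)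
    calc _ ≤ ((256 * (6 * j₁ + 2) ^ 3 : ℕ) : ℝ) := by exact_mod_cast h1
      _ = 256 * ((6 * j₁ + 2 : ℕ) : ℝ) ^ 3 := by push_cast; ring
      _ ≤ _ := by gcongr
  have hGb2 : Gb ≤ C₁ * (7 * X ^ 2) ^ (ε / 4) * (2 * K * (7 * X ^ 2) ^ (E / 2)) := by
    rw [hGb]
    gcongr
  have hXE : 1 ≤ X ^ (E + ε) := Real.one_le_rpow hX (by linarith)
  have hpow : (7 * X ^ 2) ^ (ε / 4) * (7 * X ^ 2) ^ (ε / 4) * (7 * X ^ 2) ^ (E / 2) ≤
      7 ^ (E / 2 + ε / 2) * X ^ (E + ε) := by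
    rw [← Real.rpow_add (by positivity), ← Real.rpow_add (by positivity)]
    have e2 : ε / 4 + ε / 4 + E / 2 = E / 2 + ε / 2 := by ring
    rw [e2, Real.mul_rpow (by norm_num) (by positivity), ← Real.rpow_natCast X 2,
      ← Real.rpow_mul hX0.le]
    have e3 : ((2 : ℕ) : ℝ) * (E / 2 + ε / 2) = E + ε := by push_cast; ring
    rw [e3]
  calc (S.card : ℝ) ≤ 97 + ((S \ Z).card : ℝ) := by exact_mod_cast hsplit
    _ ≤ 97 + (256 * (K₁ * (7 * X ^ 2) ^ (ε / 4))) *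
          (C₁ * (7 * X ^ 2) ^ (ε / 4) * (2 * K * (7 * X ^ 2) ^ (E / 2))) := by
        have h9 := hmain.trans (mul_le_mul hcnt hGb2 (by positivity) (by positivity))
        linarith
    _ = 97 + 256 * K₁ * C₁ * (2 * K) *
          ((7 * X ^ 2) ^ (ε / 4) * (7 * X ^ 2) ^ (ε / 4) * (7 * X ^ 2) ^ (E / 2)) := by ring
    _ ≤ 97 * X ^ (E + ε) + 256 * K₁ * C₁ * (2 * K) * (7 ^ (E / 2 + ε / 2) * X ^ (E + ε)) := by
        have h9 : 0 ≤ 256 * K₁ * C₁ * (2 * K) := by positivity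
        have h10 := mul_le_mul_of_nonneg_left hpow h9
        linarith
    _ = _ := by ring

theorem upper2 (κ c₀ ε : ℝ) (hκ : 0 < κ) (hc₀ : 0 < c₀) (hε : 0 < ε) :
    ∃ C : ℝ, 0 < C ∧ ∀ X : ℝ, 1 ≤ X →
      ((Exc2 κ c₀ X).ncard : ℝ) ≤
        C * X ^ (min 3 (max (6 / κ - 1) (1 + 3 / (2 * κ))) + ε) := by
  obtain ⟨C, hC, h⟩ := upper_main κ c₀ ε hκ hc₀ hε
  refine ⟨C + 36, by linarith, fun X hX => ?_⟩
  have h1 := h X hX
  have h2 := exc2_three κ c₀ X hX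
  have hX0 : 0 < X := by linarith
  rcases le_total 3 (max (6 / κ - 1) (1 + 3 / (2 * κ))) with h3 | h3
  · rw [min_eq_left h3]
    have h4 : X ^ (3 : ℝ) ≤ X ^ (3 + ε) := Real.rpow_le_rpow_of_exponent_le hX (by linarith)
    have h5 : 0 ≤ C * X ^ (3 + ε) := by positivity
    nlinarith
  · rw [min_eq_right h3]
    have h5 : 0 ≤ X ^ (max (6 / κ - 1) (1 + 3 / (2 * κ)) + ε) := by positivity
    nlinarith

end Pool.Agent.T2H27.Two
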